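import Pool.Agent.H45.Lib.Ts3997aac3.Q109.PLJ.AR
import Pool.Agent.H45.PF.ALG

/-! The factorisation `(x - n) (x + n) = d y ^ 2`, and relations from a square. -/

set_option autoImplicit false

namespace Pool.Agent.H45.NF

open Polynomial Pool.Agent.W223.HZ Pool.Agent.W223.PL Pool.Agent.Q276.PL Pool.Agent.H45.PF

theorem no_common {d x y p : ℤ} (hp : Prime p) (hsq : Squarefree d) (hco : IsCoprime x y)
    (h : p * p ∣ d * y ^ 2) (hpx : p ∣ x) : False := by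
  have hpy : IsCoprime p y := hco.of_isCoprime_of_dvd_left hpx
  have h1 : IsCoprime (p * p) (y ^ 2) := (hpy.mul_left hpy).pow_right
  have h2 : p * p ∣ d := h1.dvd_of_dvd_mul_right h
  exact hp.not_isUnit (hsq p h2)

theorem ar2 {d x y n : ℤ} (hd : 2 ≤ d) (hsq : Squarefree d) (hx : 0 ≤ x) (hy : 1 ≤ y) (hn : 1 ≤ n)
    (hco : IsCoprime x y) (h : x ^ 2 - d * y ^ 2 = n ^ 2) :
    ∃ e e' r s κ : ℤ, 1 ≤ e ∧ 1 ≤ e' ∧ 1 ≤ r ∧ 1 ≤ s ∧ e * e' = d ∧ (κ = 1 ∨ κ = 2) ∧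
      (x - n) * s = e * r * y ∧ (x + n) * r = e' * s * y ∧ e' * s ^ 2 - e * r ^ 2 = κ * n ∧
      IsCoprime (e * r) s ∧ IsCoprime (e' * s) r ∧ (y = r * s ∨ y = 2 * (r * s)) := by
  have hd0 : 0 < d := by linarith
  have hprod : (x - n) * (x + n) = d * y ^ 2 := by linear_combination h
  have hxn : n < x := by
    have h1 : 0 < d * y ^ 2 := by positivity
    nlinarith
  rcases Int.even_or_odd (x - n) with hev | hodd
  · obtain ⟨a, ha⟩ := hev
    obtain ⟨b, hb⟩ : ∃ b, b = a + n := ⟨_, rfl⟩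
    have hx2 : x = a + b := by omega
    have hprod2 : 4 * (a * b) = d * y ^ 2 := by
      rw [← hprod, hb, show x - n = a + a from ha, show x + n = 2 * (a + n) by omega]
      ring
    have hyev : Even y := by
      by_contra hne
      rw [Int.not_even_iff_odd] at hne
      have h2y : IsCoprime (2 : ℤ) y := by
        obtain ⟨j, hj⟩ := hne
        exact ⟨-j, 1, by rw [hj]; ring⟩
      have h1 : (2 * 2 : ℤ) ∣ d * y ^ 2 := ⟨a * b, by rw [← hprod2]; ring⟩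
      have h3 : (2 * 2 : ℤ) ∣ d := ((h2y.mul_left h2y).pow_right).dvd_of_dvd_mul_right h1
      have h4 := hsq 2 h3
      rw [Int.isUnit_iff] at h4
      omega
    obtain ⟨y1, hy1⟩ := hyev
    have hy10 : 0 < y1 := by omega
    have hab : a * b = d * y1 ^ 2 := by
      have h1 : d * y ^ 2 = 4 * (d * y1 ^ 2) := by rw [hy1]; ring
      linarith
    have hy1y : y1 ∣ y := ⟨2, by rw [hy1]; ring⟩
    have hcop : IsCoprime a b := by
      rw [Int.isCoprime_iff_gcd_eq_one]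
      by_contra hg
      obtain ⟨p, hp, hpg⟩ := Nat.exists_prime_and_dvd hg
      have hpa := (Int.natCast_dvd_natCast.2 hpg).trans (Int.gcd_dvd_left ..)
      have hpb := (Int.natCast_dvd_natCast.2 hpg).trans (Int.gcd_dvd_right ..)
      refine no_common (d := d) (x := x) (y := y1) (Nat.prime_iff_prime_int.1 hp) hsq
        (hco.of_isCoprime_of_dvd_right hy1y) ?_ ?_
      · rw [← hab]
        exact mul_dvd_mul hpa hpb
      · rw [hx2]
        exact dvd_add hpa hpb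
    obtain ⟨e, e', r, s, h1, h2, h3, h4, h5, h6, h7, h8, h9, h10⟩ := Pool.Agent.Q109.PLJ.ar_int
      a b d y1 (by omega) (by omega) hd0 hy10 hcop hab
    refine ⟨e, e', r, s, 1, h1, h2, h3, h4, h5, Or.inl rfl, ?_, ?_, ?_, h9, h10, Or.inr ?_⟩
    · rw [show x - n = 2 * a by omega, h7, hy1, ← h6]; ring
    · rw [show x + n = 2 * b by omega, h8, hy1, ← h6]; ring
    · rw [← h7, ← h8, hb]; ring
    · rw [hy1, h6]; ring
  · have hcop : IsCoprime (x - n) (x + n) := by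
      rw [Int.isCoprime_iff_gcd_eq_one]
      by_contra hg
      obtain ⟨p, hp, hpg⟩ := Nat.exists_prime_and_dvd hg
      have hpa := (Int.natCast_dvd_natCast.2 hpg).trans (Int.gcd_dvd_left ..)
      have hpb := (Int.natCast_dvd_natCast.2 hpg).trans (Int.gcd_dvd_right ..)
      have hp' := Nat.prime_iff_prime_int.1 hp
      refine no_common (d := d) (x := x) (y := y) hp' hsq hco ?_ ?_
      · rw [← hprod]
        exact mul_dvd_mul hpa hpb
      · have h1 : (p : ℤ) ∣ 2 * x := by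
          have := dvd_add hpa hpb
          rwa [show x - n + (x + n) = 2 * x by ring] at this
        rcases hp'.dvd_or_dvd h1 with h2 | h2
        · exfalso
          have h3 : (p : ℤ) = 2 := by
            have h4 : p ∣ 2 := by exact_mod_cast h2
            have h5 := (Nat.prime_dvd_prime_iff_eq hp Nat.prime_two).1 h4
            rw [h5]
            rfl
          rw [h3] at hpa
          obtain ⟨j, hj⟩ := hodd
          omega
        · exact h2
    obtain ⟨e, e', r, s, h1, h2, h3, h4, h5, h6, h7, h8, h9, h10⟩ := Pool.Agent.Q109.PLJ.ar_int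
      (x - n) (x + n) d y (by omega) (by omega) hd0 (by omega) hcop hprod
    refine ⟨e, e', r, s, 2, h1, h2, h3, h4, h5, Or.inr rfl, ?_, ?_, ?_, h9, h10, Or.inl h6.symm⟩
    · rw [h7, ← h6]; ring
    · rw [h8, ← h6]; ring
    · rw [← h7, ← h8]; ring

/-- a solution of `|x ^ 2 - d y ^ 2| ≤ Z` with the least `y` -/
def FundZ (Z : ℝ) (d x y : ℤ) : Prop := 0 ≤ x ∧ 1 ≤ y ∧ |((x ^ 2 - d * y ^ 2 : ℤ) : ℝ)| ≤ Z ∧
  ∀ x' y' : ℤ, 1 ≤ y' → |((x' ^ 2 - d * y' ^ 2 : ℤ) : ℝ)| ≤ Z → y ≤ y'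

theorem FundZ.coprime {Z : ℝ} {d x y : ℤ} (h : FundZ Z d x y) : IsCoprime x y := by
  obtain ⟨hx, hy, hZ, hmin⟩ := h
  rw [Int.isCoprime_iff_gcd_eq_one]
  by_contra hg
  obtain ⟨g, hgg⟩ : ∃ g : ℕ, g = Int.gcd x y := ⟨_, rfl⟩
  rw [← hgg] at hg
  obtain ⟨a, ha⟩ : (g : ℤ) ∣ x := by rw [hgg]; exact Int.gcd_dvd_left ..
  obtain ⟨b, hb⟩ : (g : ℤ) ∣ y := by rw [hgg]; exact Int.gcd_dvd_right ..
  have hg0 : g ≠ 0 := by
    rintro rfl
    rw [Nat.cast_zero, zero_mul] at hb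
    omega
  have hg2 : (2 : ℤ) ≤ g := by omega
  have hb1 : 1 ≤ b := by
    by_contra hcon
    nlinarith
  have h1 : |((a ^ 2 - d * b ^ 2 : ℤ) : ℝ)| ≤ Z := by
    refine le_trans ?_ hZ
    have h2 : x ^ 2 - d * y ^ 2 = (g : ℤ) ^ 2 * (a ^ 2 - d * b ^ 2) := by rw [ha, hb]; ring
    rw [h2]
    push_cast
    rw [abs_mul]
    apply le_mul_of_one_le_left (abs_nonneg _)
    rw [abs_of_nonneg (by positivity)]
    have : (1 : ℝ) ≤ g := by exact_mod_cast (by omega : 1 ≤ g)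
    nlinarith
  have h2 := hmin a b hb1 h1
  nlinarith

theorem FundZ.ne_zero {Z : ℝ} {d x y : ℤ} (hd : 2 ≤ d) (hsq : Squarefree d) (h : FundZ Z d x y) :
    x ^ 2 - d * y ^ 2 ≠ 0 := by
  intro h0
  have hco := h.coprime
  have h1 : d ∣ x ^ 2 := ⟨y ^ 2, by linarith⟩
  have h2 : y ^ 2 ∣ x ^ 2 := ⟨d, by linarith⟩
  have h3 : IsCoprime (y ^ 2) (x ^ 2) := (hco.symm.pow_left).pow_right
  have h4 : IsUnit (y ^ 2) := h3.isUnit_of_dvd' (dvd_refl _) h2
  rw [Int.isUnit_iff] at h4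
  have h5 : y ^ 2 = 1 := by
    rcases h4 with h4 | h4
    · exact h4
    · nlinarith [sq_nonneg y]
  rw [h5, mul_one] at h0
  have h6 : x * x ∣ d := ⟨1, by linarith⟩
  have h7 := hsq x h6
  rw [Int.isUnit_iff] at h7
  rcases h7 with h7 | h7
  · rw [h7] at h0
    omega
  · rw [h7] at h0
    omega

theorem exists_fundZ {Z : ℝ} {d x y : ℤ} (hy : 1 ≤ y) (h : |((x ^ 2 - d * y ^ 2 : ℤ) : ℝ)| ≤ Z) :
    ∃ x₀ y₀ : ℤ, FundZ Z d x₀ y₀ ∧ y₀ ≤ y := by
  classical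
  have hex : ∃ n : ℕ, 1 ≤ n ∧ ∃ a : ℤ, |((a ^ 2 - d * (n : ℤ) ^ 2 : ℤ) : ℝ)| ≤ Z := by
    refine ⟨y.toNat, by omega, x, ?_⟩
    rw [Int.toNat_of_nonneg (by omega)]
    exact h
  obtain ⟨h1, a, ha⟩ := Nat.find_spec hex
  obtain ⟨n, hn⟩ : ∃ n, n = Nat.find hex := ⟨_, rfl⟩
  rw [← hn] at h1 ha
  have hmin : ∀ y' : ℤ, 1 ≤ y' → (∃ b : ℤ, |((b ^ 2 - d * y' ^ 2 : ℤ) : ℝ)| ≤ Z) →
      (n : ℤ) ≤ y' := by
    rintro y' hy' ⟨b, hb⟩
    have h2 : n ≤ y'.toNat := by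
      rw [hn]
      apply Nat.find_min' hex
      refine ⟨by omega, b, ?_⟩
      rw [Int.toNat_of_nonneg (by omega)]
      exact hb
    omega
  refine ⟨|a|, n, ⟨abs_nonneg a, by exact_mod_cast h1, ?_, ?_⟩, hmin y hy ⟨x, h⟩⟩
  · rw [sq_abs]
    exact ha
  · intro x' y' hy' hxy
    exact hmin y' hy' ⟨x', hxy⟩

/-- for a minimal solution with a square norm both factors of `d` are large -/
theorem ar2_big {Z z : ℝ} {d x y n : ℤ} (hd : 2 ≤ d) (hsq : Squarefree d)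
    (hF : FundZ Z d x y) (hn : 1 ≤ n) (h : x ^ 2 - d * y ^ 2 = n ^ 2) (hz : 1 ≤ z)
    (hnZ : 2 * z * n ≤ Z) (hZd : (z + Z) * (z + Z) < d) :
    ∃ e e' r s κ : ℤ, 1 ≤ e ∧ 1 ≤ e' ∧ 1 ≤ r ∧ 1 ≤ s ∧ e * e' = d ∧ (κ = 1 ∨ κ = 2) ∧
      (x - n) * s = e * r * y ∧ (x + n) * r = e' * s * y ∧ e' * s ^ 2 - e * r ^ 2 = κ * n ∧
      IsCoprime (e * r) s ∧ IsCoprime (e' * s) r ∧ z < (e : ℝ) ∧ z < (e' : ℝ) := by
  obtain ⟨e, e', r, s, κ, he, he', hr, hs, hd', hκ, h1, h2, h3, h4, h5, h6⟩ :=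
    ar2 hd hsq hF.1 hF.2.1 hn hF.coprime h
  have hn' : (1 : ℝ) ≤ n := by exact_mod_cast hn
  have hκ2 : (0 : ℝ) ≤ κ ∧ (κ : ℝ) ≤ 2 := by
    rcases hκ with rfl | rfl <;> norm_num
  have he1 : (1 : ℝ) ≤ e := by exact_mod_cast he
  have he1' : (1 : ℝ) ≤ e' := by exact_mod_cast he'
  have hdr : (e : ℝ) * e' = d := by exact_mod_cast hd'
  have h3r : (e' : ℝ) * s ^ 2 - e * r ^ 2 = κ * n := by exact_mod_cast h3
  have hr1 : (1 : ℝ) ≤ r := by exact_mod_cast hr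
  have hs1 : (1 : ℝ) ≤ s := by exact_mod_cast hs
  have hκn : (κ : ℝ) * n ≤ 2 * n := mul_le_mul_of_nonneg_right hκ2.2 (by linarith)
  have hκn0 : 0 ≤ (κ : ℝ) * n := mul_nonneg hκ2.1 (by linarith)
  have h2nZ : 2 * (n : ℝ) ≤ Z := by nlinarith
  have hys : y ≤ r → s = 1 := by
    intro hyr
    by_contra hcon
    have hs2 : 2 ≤ s := by omega
    rcases h6 with h6 | h6 <;> nlinarith
  have hyr : y ≤ s → r = 1 := by
    intro hyr
    by_contra hcon
    have hs2 : 2 ≤ r := by omega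
    rcases h6 with h6 | h6 <;> nlinarith
  refine ⟨e, e', r, s, κ, he, he', hr, hs, hd', hκ, h1, h2, h3, h4, h5, ?_, ?_⟩
  · by_contra hcon
    push Not at hcon
    have h7 : |(((e * r) ^ 2 - d * s ^ 2 : ℤ) : ℝ)| ≤ Z := by
      have h8 : (e * r) ^ 2 - d * s ^ 2 = -(e * (κ * n)) := by
        rw [← hd', ← h3]; ring
      rw [h8]
      push_cast
      rw [abs_neg, abs_of_nonneg (by positivity)]
      nlinarith
    have h9 := hyr (hF.2.2.2 (e * r) s hs h7)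
    rw [h9] at h3r
    push_cast at h3r
    have h10 : (e' : ℝ) ≤ e' * s ^ 2 := le_mul_of_one_le_right (by linarith) (one_le_pow₀ hs1)
    have h11 : (e' : ℝ) ≤ z + Z := by linarith
    have h12 : (d : ℝ) ≤ (z + Z) * (z + Z) := by
      rw [← hdr]
      exact mul_le_mul (by linarith) h11 (by linarith) (by linarith)
    linarith
  · by_contra hcon
    push Not at hcon
    have h7 : |(((e' * s) ^ 2 - d * r ^ 2 : ℤ) : ℝ)| ≤ Z := by
      have h8 : (e' * s) ^ 2 - d * r ^ 2 = e' * (κ * n) := by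
        rw [← hd', ← h3]; ring
      rw [h8]
      push_cast
      rw [abs_of_nonneg (by positivity)]
      nlinarith
    have h9 := hys (hF.2.2.2 (e' * s) r hr h7)
    rw [h9] at h3r
    push_cast at h3r
    have h10 : (e : ℝ) ≤ e * r ^ 2 := le_mul_of_one_le_right (by linarith) (one_le_pow₀ hr1)
    have h11 : (e : ℝ) ≤ z + Z := by linarith
    have h12 : (d : ℝ) ≤ (z + Z) * (z + Z) := by
      rw [← hdr]
      exact mul_le_mul h11 (by linarith) (by linarith) (by linarith)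
    linarith

theorem str2 (k : ℕ) (l : ℤ[X]) (hl : Fam k l) (m : ℕ) (A B : ℤ[X]) (hA : A ≠ 0)
    (hAm : A.natDegree < m)
    (hco : IsCoprime (A.map (Int.castRingHom ℚ)) (B.map (Int.castRingHom ℚ)))
    (hns : ¬ NonSq (B ^ 2 - l * A ^ 2)) : ∃ P Q : ℤ[X], (P ≠ 0 ∨ Q ≠ 0) ∧ P.natDegree < m ∧
    Q.natDegree < m ∧ ∀ τ x y g n : ℤ, g ≠ 0 → 1 ≤ y → x ^ 2 - l.eval τ * y ^ 2 = n ^ 2 →
      A.eval τ = y * g → B.eval τ = - x * g →
      ((x - n) * P.eval τ + y * Q.eval τ = 0 ∨ (x + n) * P.eval τ + y * Q.eval τ = 0) := by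
  unfold NonSq at hns
  push Not at hns
  obtain ⟨P₁, P₂, hne, heq⟩ := hns
  have hφ : Function.Injective (Int.castRingHom ℚ) := Int.cast_injective
  have hP2 : P₂ ≠ 0 := by
    rintro rfl
    have : P₁ ^ 2 = 0 := by simpa using heq
    have h1 : P₁ = 0 := by simpa using this
    rcases hne with h | h
    · exact h h1
    · exact h rfl
  have hirr := hl.irr
  have e1 : (P₁.map (Int.castRingHom ℚ)) ^ 2 = (P₂.map (Int.castRingHom ℚ)) ^ 2 *
      ((B.map (Int.castRingHom ℚ)) ^ 2 - (l.map (Int.castRingHom ℚ)) *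
        (A.map (Int.castRingHom ℚ)) ^ 2) := by
    have h1 : P₁ ^ 2 = P₂ ^ 2 * (B ^ 2 - l * A ^ 2) := by
      linear_combination heq
    have h2 := congrArg (Polynomial.map (Int.castRingHom ℚ)) h1
    simpa using h2
  have ha : A.map (Int.castRingHom ℚ) ≠ 0 := (Polynomial.map_ne_zero_iff hφ).2 hA
  have hp2 : P₂.map (Int.castRingHom ℚ) ≠ 0 := (Polynomial.map_ne_zero_iff hφ).2 hP2
  have hadeg : (A.map (Int.castRingHom ℚ)).natDegree = A.natDegree :=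
    natDegree_map_eq_of_injective hφ A
  have evA := Pool.Agent.Q247.PL.ev A
  have evB := Pool.Agent.Q247.PL.ev B
  have evl := Pool.Agent.Q247.PL.ev l
  generalize A.map (Int.castRingHom ℚ) = a at *
  generalize B.map (Int.castRingHom ℚ) = b at *
  generalize l.map (Int.castRingHom ℚ) = lq at *
  generalize P₁.map (Int.castRingHom ℚ) = p₁ at *
  generalize P₂.map (Int.castRingHom ℚ) = p₂ at *
  have hdvd : p₂ ∣ p₁ := (IsIntegrallyClosed.pow_dvd_pow_iff two_ne_zero).1 ⟨_, e1⟩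
  obtain ⟨H, rfl⟩ := hdvd
  have hH : H ^ 2 = b ^ 2 - lq * a ^ 2 := by
    have : p₂ ^ 2 * H ^ 2 = p₂ ^ 2 * (b ^ 2 - lq * a ^ 2) := by
      rw [← e1]; ring
    exact mul_left_cancel₀ (pow_ne_zero 2 hp2) this
  have hlp : Prime lq := hirr.prime
  obtain ⟨H', hH', hd⟩ : ∃ H' : ℚ[X], H' ^ 2 = b ^ 2 - lq * a ^ 2 ∧ lq ∣ b - H' := by
    have h1 : lq ∣ (b - H) * (b + H) := ⟨a ^ 2, by linear_combination -hH⟩
    rcases hlp.dvd_or_dvd h1 with h | h
    · exact ⟨H, hH, h⟩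
    · exact ⟨-H, by rw [neg_sq, hH], by rwa [sub_neg_eq_add]⟩
  obtain ⟨c, S, T, hc0, hST, hbT⟩ := facf hirr hco ha hH' hd
  have hS0 : S ≠ 0 := by rintro rfl; rw [zero_mul] at hST; exact ha hST
  have hT0 : T ≠ 0 := by rintro rfl; rw [mul_zero] at hST; exact ha hST
  have hdeg : S.natDegree + T.natDegree = A.natDegree := by
    rw [← hadeg, hST, natDegree_mul hS0 hT0]
  obtain ⟨N₁, P₀, hN₁, hP₀⟩ := Pool.Agent.Q247.PL.intmult S
  obtain ⟨N₂, Q₀, hN₂, hQ₀⟩ := Pool.Agent.Q247.PL.intmult (C c * T)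
  have hmapP : (C N₂ * P₀).map (Int.castRingHom ℚ) = C ((N₁ * N₂ : ℤ) : ℚ) * S := by
    rw [Polynomial.map_mul, hP₀, Polynomial.map_C]
    simp only [eq_intCast, Int.cast_mul, C_mul]
    ring
  have hmapQ : (C N₁ * Q₀).map (Int.castRingHom ℚ) = C ((N₁ * N₂ : ℤ) : ℚ) * (C c * T) := by
    rw [Polynomial.map_mul, hQ₀, Polynomial.map_C]
    simp only [eq_intCast, Int.cast_mul, C_mul]
    ring
  have hN : ((N₁ * N₂ : ℤ) : ℚ) ≠ 0 := by exact_mod_cast mul_ne_zero hN₁ hN₂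
  refine ⟨C N₂ * P₀, C N₁ * Q₀, Or.inl ?_, ?_, ?_, ?_⟩
  · intro h
    have h1 := hmapP
    rw [h, Polynomial.map_zero] at h1
    exact mul_ne_zero (C_ne_zero.2 hN) hS0 h1.symm
  · rw [← natDegree_map_eq_of_injective hφ, hmapP, natDegree_C_mul hN]
    omega
  · rw [← natDegree_map_eq_of_injective hφ, hmapQ, natDegree_C_mul hN, natDegree_C_mul hc0]
    omega
  · intro τ x y g n hg hy hxy hAτ hBτ
    have hAq : a.eval (τ : ℚ) = y * g := by rw [← evA, hAτ]; push_cast; ring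
    have hBq : b.eval (τ : ℚ) = -x * g := by rw [← evB, hBτ]; push_cast; ring
    have hs : S.eval (τ : ℚ) * T.eval (τ : ℚ) = y * g := by
      rw [← hAq, hST, eval_mul]
    have hxyq : (x : ℚ) ^ 2 - lq.eval (τ : ℚ) * (y : ℚ) ^ 2 = n ^ 2 := by
      rw [← evl]
      exact_mod_cast hxy
    have hh : (H'.eval (τ : ℚ)) ^ 2 = ((g : ℚ) * n) ^ 2 := by
      have h1 := congrArg (Polynomial.eval (τ : ℚ)) hH'
      simp only [eval_pow, eval_sub, eval_mul, hAq, hBq] at h1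
      rw [h1]
      linear_combination (g : ℚ) ^ 2 * hxyq
    have ht : -x * g + H'.eval (τ : ℚ) = c * (T.eval (τ : ℚ)) ^ 2 := by
      have h1 := congrArg (Polynomial.eval (τ : ℚ)) hbT
      simp only [eval_pow, eval_add, eval_mul, eval_C, hBq] at h1
      exact h1
    have hgq : (g : ℚ) ≠ 0 := by exact_mod_cast hg
    have hyq : (y : ℚ) ≠ 0 := by
      have : y ≠ 0 := by omega
      exact_mod_cast this
    have hT1 : T.eval (τ : ℚ) ≠ 0 := by
      intro h0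
      rw [h0, mul_zero] at hs
      exact mul_ne_zero hyq hgq hs.symm
    have hPe : (((C N₂ * P₀).eval τ : ℤ) : ℚ) = ((N₁ * N₂ : ℤ) : ℚ) * S.eval (τ : ℚ) := by
      rw [Pool.Agent.Q247.PL.ev, hmapP, eval_mul, eval_C]
    have hQe : (((C N₁ * Q₀).eval τ : ℤ) : ℚ) = ((N₁ * N₂ : ℤ) : ℚ) * (c * T.eval (τ : ℚ)) := by
      rw [Pool.Agent.Q247.PL.ev, hmapQ, eval_mul, eval_mul, eval_C, eval_C]
    rcases sq_eq_sq_iff_eq_or_eq_neg.1 hh with h | h
    · left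
      have h3 : (((x - n) * (C N₂ * P₀).eval τ + y * (C N₁ * Q₀).eval τ : ℤ) : ℚ) = 0 := by
        push_cast [hPe, hQe]
        have h4 : ((x : ℚ) - n) * (((N₁ * N₂ : ℤ) : ℚ) * S.eval (τ : ℚ)) +
            y * (((N₁ * N₂ : ℤ) : ℚ) * (c * T.eval (τ : ℚ))) = 0 := by
          apply mul_right_cancel₀ hT1
          rw [h] at ht
          linear_combination (x - n) * ((N₁ * N₂ : ℤ) : ℚ) * hs - y * ((N₁ * N₂ : ℤ) : ℚ) * ht
        push_cast at h4
        exact h4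
      exact_mod_cast h3
    · right
      have h3 : (((x + n) * (C N₂ * P₀).eval τ + y * (C N₁ * Q₀).eval τ : ℤ) : ℚ) = 0 := by
        push_cast [hPe, hQe]
        have h4 : ((x : ℚ) + n) * (((N₁ * N₂ : ℤ) : ℚ) * S.eval (τ : ℚ)) +
            y * (((N₁ * N₂ : ℤ) : ℚ) * (c * T.eval (τ : ℚ))) = 0 := by
          apply mul_right_cancel₀ hT1
          rw [h] at ht
          linear_combination (x + n) * ((N₁ * N₂ : ℤ) : ℚ) * hs - y * ((N₁ * N₂ : ℤ) : ℚ) * ht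
        push_cast at h4
        exact h4
      exact_mod_cast h3

end Pool.Agent.H45.NF
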