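import Pool.Agent.H45.NF.BLKN
import Pool.Agent.H45.PF.COV

/-! Small norms: covering an interval by windows. -/

set_option autoImplicit false

namespace Pool.Agent.H45.NF

open Polynomial Pool.Agent.Q276.PL Pool.Agent.H45.PF Filter Topology

/-- the integers of an interval with squarefree value and a small norm -/
def BadZ (f : ℤ[X]) (N H : ℕ) (Z Y : ℝ) : Set ℕ := {n : ℕ | N < n ∧ n ≤ N + H ∧
  Squarefree (f.eval (n : ℤ)) ∧
  ∃ x y : ℤ, 1 ≤ y ∧ |((x ^ 2 - f.eval (n : ℤ) * y ^ 2 : ℤ) : ℝ)| ≤ Z ∧ (y : ℝ) ≤ Y}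

theorem badZ_finite (f : ℤ[X]) (N H : ℕ) (Z Y : ℝ) : (BadZ f N H Z Y).Finite := by
  refine (Set.finite_Icc N (N + H)).subset ?_
  rintro n ⟨h1, h2, -⟩
  exact ⟨h1.le, h2⟩

theorem coverZ (f : ℤ[X]) (N H : ℕ) (Z Y L W : ℝ) (hL : 1 ≤ L) (hLH : L ≤ H) (hW : 0 ≤ W)
    (h : ∀ c : ℤ, (N : ℝ) + L ≤ c → (c : ℝ) ≤ N + 2 * H →
      ((WinZ (taylor c f) L Z Y).ncard : ℝ) ≤ L * W) : ((BadZ f N H Z Y).ncard : ℝ) ≤ 2 * H * W := by
  classical
  obtain ⟨B, hB⟩ : ∃ B : Finset ℕ, B = (badZ_finite f N H Z Y).toFinset := ⟨_, rfl⟩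
  have hBc : (BadZ f N H Z Y).ncard = B.card := by
    rw [hB, Set.ncard_eq_toFinset_card _ (badZ_finite f N H Z Y)]
  have hBmem : ∀ n ∈ B, N < n ∧ n ≤ N + H ∧ Squarefree (f.eval (n : ℤ)) ∧
      ∃ x y : ℤ, 1 ≤ y ∧ |((x ^ 2 - f.eval (n : ℤ) * y ^ 2 : ℤ) : ℝ)| ≤ Z ∧ (y : ℝ) ≤ Y := by
    intro n hn
    rw [hB, Set.Finite.mem_toFinset] at hn
    exact hn
  rw [hBc]
  obtain ⟨r, hr⟩ : ∃ r : ℕ, r = ⌊L⌋₊ := ⟨_, rfl⟩
  have hrL : (r : ℝ) ≤ L := by rw [hr]; exact Nat.floor_le (by linarith)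
  have hLr : L < r + 1 := by rw [hr]; exact Nat.lt_floor_add_one L
  have hr1 : 1 ≤ r := by rw [hr]; exact (Nat.one_le_floor_iff L).2 hL
  have hr1' : (1 : ℝ) ≤ r := by exact_mod_cast hr1
  obtain ⟨g, hg⟩ : ∃ g : ℕ, g = 2 * r + 1 := ⟨_, rfl⟩
  have hg0 : 0 < g := by omega
  have hgL : L ≤ g := by
    rw [hg]
    push_cast
    linarith
  obtain ⟨J, hJ⟩ : ∃ J : ℕ, J = (H - 1) / g := ⟨_, rfl⟩
  have hH1 : 1 ≤ H := by
    have : (1 : ℝ) ≤ H := hL.trans hLH
    exact_mod_cast this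
  have hmaps : ∀ n ∈ B, (n - N - 1) / g ∈ Finset.range (J + 1) := by
    intro n hn
    have h1 := hBmem n hn
    rw [Finset.mem_range, hJ]
    have h2 : (n - N - 1) / g ≤ (H - 1) / g := Nat.div_le_div_right (by omega)
    omega
  have hfib : ∀ j ∈ Finset.range (J + 1),
      (((B.filter fun n => (n - N - 1) / g = j).card : ℕ) : ℝ) ≤ L * W := by
    intro j hj
    rw [Finset.mem_range] at hj
    rcases (B.filter fun n => (n - N - 1) / g = j).eq_empty_or_nonempty with he | ⟨n₀, hn₀⟩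
    · rw [he]
      simp only [Finset.card_empty, Nat.cast_zero]
      positivity
    obtain ⟨c, hc⟩ : ∃ c : ℕ, c = N + 1 + r + g * j := ⟨_, rfl⟩
    have hjH : g * j ≤ H - 1 := by
      have h1 : j ≤ (H - 1) / g := by omega
      calc g * j ≤ g * ((H - 1) / g) := Nat.mul_le_mul_left _ h1
        _ ≤ H - 1 := Nat.mul_div_le _ _
    have hcR : (c : ℝ) = N + 1 + r + g * j := by rw [hc]; push_cast; ring
    have hc1 : (N : ℝ) + L ≤ ((c : ℤ) : ℝ) := by
      push_cast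
      rw [hcR]
      have : (0 : ℝ) ≤ g * j := by positivity
      linarith
    have hc2 : ((c : ℤ) : ℝ) ≤ N + 2 * H := by
      push_cast
      have h1 : c ≤ N + H + r := by omega
      have h2 : (c : ℝ) ≤ N + H + r := by exact_mod_cast h1
      linarith
    refine le_trans ?_ (h c hc1 hc2)
    have h1 : (B.filter fun n => (n - N - 1) / g = j).card =
        ((B.filter fun n => (n - N - 1) / g = j : Finset ℕ) : Set ℕ).ncard :=
      (Set.ncard_coe_finset _).symm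
    rw [h1]
    have h2 := Set.ncard_le_ncard_of_injOn (s := ((B.filter fun n => (n - N - 1) / g = j :
      Finset ℕ) : Set ℕ)) (t := WinZ (taylor (c : ℤ) f) L Z Y) (fun n : ℕ => (n : ℤ) - c) ?_ ?_
      (winZ_finite _ _ _ _)
    · exact_mod_cast h2
    · intro n hn
      rw [Finset.mem_coe, Finset.mem_filter] at hn
      obtain ⟨hn1, hn2⟩ := hn
      obtain ⟨h3, h4, h5, x, y, hy1, hf, hy⟩ := hBmem n hn1
      have he : (taylor (c : ℤ) f).eval ((n : ℤ) - c) = f.eval (n : ℤ) := by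
        rw [taylor_eval]
        congr 1
        ring
      refine ⟨?_, ?_, x, y, hy1, ?_, hy⟩
      · have h6 := Nat.div_add_mod (n - N - 1) g
        rw [hn2] at h6
        have h7 : (n - N - 1) % g < g := Nat.mod_lt _ hg0
        have h8 : n + r = c + (n - N - 1) % g := by omega
        have h9 : |(n : ℤ) - c| ≤ r := by
          rw [abs_le]
          constructor <;> omega
        have h10 : (((|(n : ℤ) - c| : ℤ)) : ℝ) ≤ r := by exact_mod_cast h9
        push_cast at h10 ⊢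
        linarith
      · rw [he]
        exact h5
      · rw [he]
        exact hf
    · intro a _ b _ hab
      simp only at hab
      omega
  have h1 : B.card = ∑ j ∈ Finset.range (J + 1), (B.filter fun n => (n - N - 1) / g = j).card :=
    Finset.card_eq_sum_card_fiberwise hmaps
  have h2 : (B.card : ℝ) ≤ ∑ j ∈ Finset.range (J + 1), L * W := by
    rw [h1]
    push_cast
    exact Finset.sum_le_sum hfib
  refine h2.trans ?_
  rw [Finset.sum_const, Finset.card_range, nsmul_eq_mul]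
  push_cast
  have h3 : (J : ℝ) * L ≤ H := by
    have h4 : J * g ≤ H - 1 := by rw [hJ]; exact Nat.div_mul_le_self _ _
    have h5 : (J : ℝ) * g ≤ H := by
      have h6 : J * g ≤ H := by omega
      exact_mod_cast h6
    have h6 : (J : ℝ) * L ≤ J * g := mul_le_mul_of_nonneg_left hgL (Nat.cast_nonneg J)
    linarith
  calc ((J : ℝ) + 1) * (L * W) = ((J : ℝ) * L + L) * W := by ring
    _ ≤ (2 * H) * W := mul_le_mul_of_nonneg_right (by linarith) hW

theorem dom_X (N : ℝ) (hN : 0 ≤ N) : Dom 1 0 N (X : ℤ[X]) where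
  irr := irreducible_X
  deg := natDegree_X
  one_le := by rw [leadingCoeff_X]
  le_pow := by rw [leadingCoeff_X, pow_zero, Int.cast_one]
  coef := by
    intro j hj
    have hj0 : j = 0 := by omega
    subst hj0
    rw [coeff_X_zero]
    simp only [Int.cast_zero, abs_zero]
    rw [leadingCoeff_X]
    positivity

/-- a block, one range of `y` -/
theorem blockZ : ∃ c : ℝ, 0 < c ∧ ∀ δ : ℝ, 0 < δ → δ < 1 / 2 → ∃ N₀ : ℕ, ∀ N ≥ N₀,
    ∀ σ : ℝ, 1 ≤ σ → σ ≤ Real.log (3 / 4 * N) ^ (1 / 2 - δ) → ∀ H : ℕ, √(N : ℝ) ≤ H →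
      (H : ℝ) ≤ N / 16 →
      ((BadZ X N H (Real.exp (c * (Real.log (3 / 4 * N) / σ ^ 2))) ((3 / 4 * N) ^ σ)).ncard : ℝ) ≤
        2 * H * Real.exp (-(Real.log (3 / 4 * N) ^ (2 * δ / 3))) := by
  obtain ⟨c, hc, hblk⟩ := blkn 1 (1 / 2) (by norm_num) (by norm_num)
  refine ⟨c, hc, fun δ hδ hδ2 => ?_⟩
  obtain ⟨D₁, hD₁1, hD₁⟩ := hblk δ hδ hδ2
  obtain ⟨N₀, hN₀⟩ := Filter.eventually_atTop.1
    ((tendsto_natCast_atTop_atTop (R := ℝ)).eventually (eventually_ge_atTop (2 * D₁ + 4096)))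
  refine ⟨N₀, fun N hN σ hσ1 hσ2 H hH1 hH2 => ?_⟩
  have h1 := hN₀ N hN
  have hN1 : (1 : ℝ) ≤ N := by linarith
  have hN0 : (0 : ℝ) < N := by linarith
  obtain ⟨D, hD⟩ : ∃ D : ℝ, D = 3 / 4 * N := ⟨_, rfl⟩
  rw [← hD] at hσ2 ⊢
  have hDD : D₁ ≤ D := by linarith
  have hD1 : 1 ≤ D := by linarith
  obtain ⟨L, hL1, hL2, hLW⟩ := hD₁ D hDD σ hσ1 hσ2
  have hLH : L ≤ H := by
    refine hL2.trans (le_trans ?_ hH1)
    rw [Real.sqrt_eq_rpow]
    calc D ^ ((1 : ℝ) / 2 / 2) ≤ D ^ ((1 : ℝ) / 2) :=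
          Real.rpow_le_rpow_of_exponent_le hD1 (by norm_num)
      _ ≤ (N : ℝ) ^ ((1 : ℝ) / 2) := Real.rpow_le_rpow (by linarith) (by linarith) (by norm_num)
  apply coverZ X N H _ _ L _ hL1 hLH (Real.exp_pos _).le
  intro e hc1 hc2
  have hcN : (N : ℝ) ≤ e := by linarith
  have hc3 : (e : ℝ) ≤ (1 + 1 / (8 * ((1 : ℕ) : ℝ))) * N := by
    push_cast
    linarith
  have hnear := near_taylor odd_one (dom_X N hN0.le) hN1 (1 / 2) (by norm_num) (by
    push_cast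
    rw [pow_one, ← Real.sqrt_eq_rpow]
    have h6 : 64 ≤ √(N : ℝ) := Real.le_sqrt_of_sq_le (by linarith)
    rw [le_div_iff₀ (by norm_num)]
    calc √(N : ℝ) * (8 * (1 + 1) ^ 2 * 2 ^ 1) = √(N : ℝ) * 64 := by ring
      _ ≤ √(N : ℝ) * √(N : ℝ) := mul_le_mul_of_nonneg_left h6 (Real.sqrt_nonneg _)
      _ = N := Real.mul_self_sqrt hN0.le) e hcN hc3
  have hDeq : 3 / 4 * (((X : ℤ[X]).leadingCoeff : ℝ) * (N : ℝ) ^ 1) = D := by
    rw [leadingCoeff_X, hD, pow_one]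
    push_cast
    ring
  rw [hDeq] at hnear
  apply hLW _ _ hnear
  intro τ hτ
  rw [taylor_eval, eval_X]
  have h5 := (abs_le.1 hτ).1
  push_cast
  linarith

/-- the exceptional integers -/
def Bad3 (N H : ℕ) (c t s : ℝ) : Set ℕ := {d : ℕ | N < d ∧ d ≤ N + H ∧ Squarefree (d : ℤ) ∧
  ∃ x y : ℤ, 1 ≤ y ∧ Real.log y ≤ s ∧
    |((x ^ 2 - (d : ℤ) * y ^ 2 : ℤ) : ℝ)| ≤ Real.exp (c * (t ^ 3 / (t + Real.log y) ^ 2))}

theorem bad3_finite (N H : ℕ) (c t s : ℝ) : (Bad3 N H c t s).Finite := by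
  refine (Set.finite_Icc N (N + H)).subset ?_
  rintro n ⟨h1, h2, -⟩
  exact ⟨h1.le, h2⟩

/-- a block, all ranges of `y` -/
theorem block3 : ∃ c : ℝ, 0 < c ∧ ∀ δ : ℝ, 0 < δ → δ < 1 / 2 → ∃ N₀ : ℕ, ∀ N ≥ N₀,
    ∀ t : ℝ, t ≤ Real.log N → Real.log N ≤ t + 1 → ∀ H : ℕ, √(N : ℝ) ≤ H → (H : ℝ) ≤ N / 16 →
      ((Bad3 N H c t (t ^ (3 / 2 - δ))).ncard : ℝ) ≤
        H * Real.exp (-(3 / 2 * t ^ (δ / 2))) := by
  classical
  obtain ⟨c, hc, hblk⟩ := blockZ
  refine ⟨c / 32, by positivity, fun δ hδ hδ2 => ?_⟩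
  obtain ⟨N₁, hN₁⟩ := hblk (4 * δ / 5) (by positivity) (by linarith)
  obtain ⟨T₁, hT₁⟩ := Filter.eventually_atTop.1
    (((tendsto_rpow_atTop (by positivity : 0 < δ / 5)).eventually (eventually_ge_atTop 8)).and
    (((tendsto_rpow_atTop (by positivity : 0 < δ / 30)).eventually (eventually_ge_atTop 8)).and
    (((tendsto_rpow_mul_exp_neg_mul_atTop_nhds_zero (2 / δ) 1 one_pos).comp
      (tendsto_rpow_atTop (by positivity : 0 < δ / 2))).eventually_le_const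
        (by norm_num : (0 : ℝ) < 1 / 8))))
  obtain ⟨N₀, hN₀⟩ := Filter.eventually_atTop.1
    ((nlim 1 one_pos).eventually (eventually_ge_atTop (|T₁| + 10)) |>.and (eventually_ge_atTop 1))
  refine ⟨max N₁ N₀, fun N hN t ht1 ht2 H hH1 hH2 => ?_⟩
  have hN1 : N₁ ≤ N := le_of_max_le_left hN
  obtain ⟨h1, h1'⟩ := hN₀ N (le_of_max_le_right hN)
  rw [Real.rpow_one] at h1
  have hN0 : (0 : ℝ) < N := by exact_mod_cast h1'
  have habs : 0 ≤ |T₁| := abs_nonneg _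
  have hTt : T₁ ≤ t := by linarith [le_abs_self T₁]
  obtain ⟨h2, h3, h4⟩ := hT₁ t hTt
  simp only [Function.comp_apply] at h4
  have ht9 : 9 ≤ t := by linarith
  have ht0 : 0 < t := by linarith
  obtain ⟨l, hl⟩ : ∃ l, l = Real.log (3 / 4 * N) := ⟨_, rfl⟩
  have hll : l = Real.log (3 / 4) + Real.log N := by
    rw [hl, Real.log_mul (by norm_num) hN0.ne']
  have h34 : -1 ≤ Real.log (3 / 4) := by
    have h7 : Real.log (4 / 3) ≤ 4 / 3 - 1 := Real.log_le_sub_one_of_pos (by norm_num)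
    have h8 : Real.log (3 / 4) = -Real.log (4 / 3) := by
      rw [← Real.log_inv]
      norm_num
    rw [h8]
    linarith
  have h34' : Real.log (3 / 4) ≤ 0 := Real.log_nonpos (by norm_num) (by norm_num)
  have hlt : t / 2 ≤ l := by linarith
  have hlt2 : l ≤ t + 1 := by linarith
  have hl1 : 1 ≤ l := by linarith
  have hl0 : 0 < l := by linarith
  have hDl : (3 / 4 * (N : ℝ)) = Real.exp l := by rw [hl, Real.exp_log (by positivity)]
  obtain ⟨s, hs⟩ : ∃ s, s = t ^ (3 / 2 - δ) := ⟨_, rfl⟩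
  rw [← hs]
  have hst : s = t ^ (1 / 2 - δ) * t := by
    rw [hs, ← Real.rpow_add_one ht0.ne']
    congr 1
    ring
  have ht12 : 0 < t ^ (1 / 2 - δ) := Real.rpow_pos_of_pos ht0 _
  have h4t : 4 * t ^ (1 / 2 - δ) ≤ l ^ (1 / 2 - 4 * δ / 5) := by
    have h5 : (t / 2) ^ (1 / 2 - 4 * δ / 5) ≤ l ^ (1 / 2 - 4 * δ / 5) :=
      Real.rpow_le_rpow (by positivity) hlt (by linarith)
    refine le_trans ?_ h5
    rw [Real.div_rpow ht0.le (by norm_num)]
    have h6 : (2 : ℝ) ^ (1 / 2 - 4 * δ / 5) ≤ 2 := by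
      calc (2 : ℝ) ^ (1 / 2 - 4 * δ / 5) ≤ 2 ^ (1 : ℝ) :=
            Real.rpow_le_rpow_of_exponent_le (by norm_num) (by linarith)
        _ = 2 := by norm_num
    have h7 : t ^ (1 / 2 - 4 * δ / 5) = t ^ (δ / 5) * t ^ (1 / 2 - δ) := by
      rw [← Real.rpow_add ht0]
      congr 1
      ring
    rw [le_div_iff₀ (by positivity), h7]
    calc 4 * t ^ (1 / 2 - δ) * 2 ^ (1 / 2 - 4 * δ / 5) ≤ 4 * t ^ (1 / 2 - δ) * 2 := by gcongr
      _ = 8 * t ^ (1 / 2 - δ) := by ring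
      _ ≤ t ^ (δ / 5) * t ^ (1 / 2 - δ) := by gcongr
  obtain ⟨e, he⟩ : ∃ e, e = 1 / 2 - 4 * δ / 5 := ⟨_, rfl⟩
  rw [← he] at h4t
  have hle : l ^ e ≤ l := by
    calc l ^ e ≤ l ^ (1 : ℝ) := Real.rpow_le_rpow_of_exponent_le hl1 (by rw [he]; linarith)
      _ = l := Real.rpow_one l
  obtain ⟨J, hJ⟩ : ∃ J : Finset ℕ, J = (Finset.range (⌊l⌋₊ + 1)).filter fun j : ℕ =>
    (2 : ℝ) ^ j ≤ l ^ e := ⟨_, rfl⟩
  obtain ⟨F, hF⟩ : ∃ F : ℕ → Set ℕ, F = fun j => BadZ X N H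
    (Real.exp (c * (l / ((2 : ℝ) ^ j) ^ 2))) ((3 / 4 * N) ^ ((2 : ℝ) ^ j)) := ⟨_, rfl⟩
  have hFfin : ∀ j, (F j).Finite := by
    intro j
    rw [hF]
    exact badZ_finite _ _ _ _ _
  have hsub : Bad3 N H (c / 32) t s ⊆ ⋃ j ∈ J, F j := by
    rintro d ⟨h5, h6, h7, x, y, hy1, hys, hxy⟩
    have hy1r : (1 : ℝ) ≤ y := by exact_mod_cast hy1
    have hlogy : 0 ≤ Real.log y := Real.log_nonneg hy1r
    have hex : ∃ j : ℕ, Real.log y ≤ 2 ^ j * l := by
      obtain ⟨j, hj⟩ := pow_unbounded_of_one_lt (Real.log y) (one_lt_two : (1 : ℝ) < 2)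
      refine ⟨j, ?_⟩
      have : (2 : ℝ) ^ j ≤ 2 ^ j * l := le_mul_of_one_le_right (by positivity) hl1
      linarith
    obtain ⟨j, hj⟩ : ∃ j, j = Nat.find hex := ⟨_, rfl⟩
    have hjs : Real.log y ≤ 2 ^ j * l := by rw [hj]; exact Nat.find_spec hex
    have hkey : (2 : ℝ) ^ j ≤ l ^ e ∧
        c / 32 * (t ^ 3 / (t + Real.log y) ^ 2) ≤ c * (l / ((2 : ℝ) ^ j) ^ 2) := by
      rcases Nat.eq_zero_or_pos j with hj0 | hjpos
      · rw [hj0, pow_zero]
        refine ⟨Real.one_le_rpow hl1 (by rw [he]; linarith), ?_⟩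
        have h8 : t ^ 3 / (t + Real.log y) ^ 2 ≤ t := by
          rw [div_le_iff₀ (by positivity)]
          have h9 : t ^ 2 ≤ (t + Real.log y) ^ 2 := pow_le_pow_left₀ ht0.le (by linarith) 2
          calc t ^ 3 = t * t ^ 2 := by ring
            _ ≤ t * (t + Real.log y) ^ 2 := mul_le_mul_of_nonneg_left h9 ht0.le
        have h9 : c / 32 * (t ^ 3 / (t + Real.log y) ^ 2) ≤ c / 32 * t :=
          mul_le_mul_of_nonneg_left h8 (by positivity)
        have h10 : c / 32 * t ≤ c * l := by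
          have : t ≤ 2 * l := by linarith
          have h11 := mul_le_mul_of_nonneg_left this hc.le
          have h12 : 0 < c * l := by positivity
          linarith
        rw [one_pow, div_one]
        linarith
      · obtain ⟨i, hi⟩ : ∃ i, j = i + 1 := ⟨j - 1, by omega⟩
        have hmin : ¬ Real.log y ≤ 2 ^ i * l := by
          apply Nat.find_min hex
          omega
        push Not at hmin
        obtain ⟨σ, hσ⟩ : ∃ σ : ℝ, σ = 2 ^ j := ⟨_, rfl⟩
        have hσi : σ = 2 * 2 ^ i := by rw [hσ, hi, pow_succ]; ring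
        rw [← hσ]
        have hσ0 : 0 < σ := by rw [hσ]; positivity
        have h8 : σ * l / 2 < Real.log y := by
          rw [hσi]
          linarith
        constructor
        · refine le_trans ?_ h4t
          have h9 : σ * l < 2 * (t ^ (1 / 2 - δ) * t) := by rw [← hst]; linarith
          have h10 : σ * (t / 2) ≤ σ * l := mul_le_mul_of_nonneg_left hlt hσ0.le
          have h11 : σ * t ≤ (4 * t ^ (1 / 2 - δ)) * t := by linarith
          exact le_of_mul_le_mul_right h11 ht0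
        · have h9 : (σ * l / 2) ^ 2 ≤ (t + Real.log y) ^ 2 :=
            pow_le_pow_left₀ (by positivity) (by linarith) 2
          have h10 : t ^ 3 / (t + Real.log y) ^ 2 ≤ 32 * (l / σ ^ 2) := by
            rw [div_le_iff₀ (by positivity)]
            have h11 : t ^ 3 ≤ (2 * l) ^ 3 := pow_le_pow_left₀ ht0.le (by linarith) 3
            calc t ^ 3 ≤ (2 * l) ^ 3 := h11
              _ = 32 * (l / σ ^ 2) * (σ * l / 2) ^ 2 := by
                  field_simp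
                  ring
              _ ≤ 32 * (l / σ ^ 2) * (t + Real.log y) ^ 2 := by gcongr
          have h11 := mul_le_mul_of_nonneg_left h10 (by positivity : 0 ≤ c / 32)
          linarith
    rw [Set.mem_iUnion₂]
    refine ⟨j, ?_, ?_⟩
    · rw [hJ, Finset.mem_filter, Finset.mem_range]
      refine ⟨?_, hkey.1⟩
      have h8 : (j : ℝ) < 2 ^ j := by exact_mod_cast Nat.lt_two_pow_self
      have h9 : j ≤ ⌊l⌋₊ := Nat.le_floor (by linarith [hkey.1])
      omega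
    · rw [hF]
      refine ⟨h5, h6, by rwa [eval_X], x, y, hy1, ?_, ?_⟩
      · rw [eval_X]
        exact hxy.trans (Real.exp_le_exp.2 hkey.2)
      · rw [hDl, ← Real.exp_mul]
        have h8 : (y : ℝ) = Real.exp (Real.log y) := (Real.exp_log (by linarith)).symm
        rw [h8]
        apply Real.exp_le_exp.2
        linarith
  have hfin : (⋃ j ∈ J, F j).Finite := Set.Finite.biUnion (Finset.finite_toSet _) fun i _ => hFfin i
  obtain ⟨u, hu⟩ : ∃ u, u = t ^ (δ / 2) := ⟨_, rfl⟩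
  have hu0 : 0 < u := by rw [hu]; exact Real.rpow_pos_of_pos ht0 _
  have hexpu : Real.exp (-(l ^ (2 * (4 * δ / 5) / 3))) ≤ Real.exp (-(4 * u)) := by
    apply Real.exp_le_exp.2
    apply neg_le_neg
    have h5 : (t / 2) ^ (2 * (4 * δ / 5) / 3) ≤ l ^ (2 * (4 * δ / 5) / 3) :=
      Real.rpow_le_rpow (by positivity) hlt (by positivity)
    refine le_trans ?_ h5
    rw [Real.div_rpow ht0.le (by norm_num)]
    have h6 : (2 : ℝ) ^ (2 * (4 * δ / 5) / 3) ≤ 2 := by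
      calc (2 : ℝ) ^ (2 * (4 * δ / 5) / 3) ≤ 2 ^ (1 : ℝ) :=
            Real.rpow_le_rpow_of_exponent_le (by norm_num) (by linarith)
        _ = 2 := by norm_num
    have h7 : t ^ (2 * (4 * δ / 5) / 3) = t ^ (δ / 30) * u := by
      rw [hu, ← Real.rpow_add ht0]
      congr 1
      ring
    rw [le_div_iff₀ (by positivity), h7]
    calc 4 * u * 2 ^ (2 * (4 * δ / 5) / 3) ≤ 4 * u * 2 := by gcongr
      _ = 8 * u := by ring
      _ ≤ t ^ (δ / 30) * u := by gcongr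
  have hblkJ : ∀ j ∈ J, ((F j).ncard : ℝ) ≤ 2 * H * Real.exp (-(4 * u)) := by
    intro j hj
    rw [hJ, Finset.mem_filter] at hj
    have h5 := hN₁ N hN1 ((2 : ℝ) ^ j) (one_le_pow₀ (by norm_num)) (by
      rw [← hl, ← he]
      exact hj.2) H hH1 hH2
    rw [← hl] at h5
    rw [hF]
    exact h5.trans (mul_le_mul_of_nonneg_left hexpu (by positivity))
  have h5 : ((Bad3 N H (c / 32) t s).ncard : ℝ) ≤ ∑ j ∈ J, ((F j).ncard : ℝ) := by
    have h6 := Set.ncard_le_ncard hsub hfin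
    have h7 := Finset.set_ncard_biUnion_le J F
    exact_mod_cast h6.trans h7
  refine h5.trans ((Finset.sum_le_sum hblkJ).trans ?_)
  rw [Finset.sum_const, nsmul_eq_mul, ← hu]
  have hJc : (J.card : ℝ) ≤ 2 * t := by
    have h6 : J.card ≤ ⌊l⌋₊ + 1 := by
      rw [hJ]
      refine (Finset.card_filter_le _ _).trans ?_
      rw [Finset.card_range]
    have h7 : ((⌊l⌋₊ : ℕ) : ℝ) ≤ l := Nat.floor_le hl0.le
    have h8 : (J.card : ℝ) ≤ (⌊l⌋₊ : ℕ) + 1 := by exact_mod_cast h6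
    linarith
  have htu : t = u ^ (2 / δ) := by
    rw [hu, ← Real.rpow_mul ht0.le, show δ / 2 * (2 / δ) = 1 by field_simp, Real.rpow_one]
  have h4' : t * Real.exp (-u) ≤ 1 / 8 := by
    rw [← hu, ← htu, neg_one_mul] at h4
    exact h4
  have h6 : Real.exp (-(4 * u)) = Real.exp (-u) * Real.exp (-(3 * u)) := by
    rw [← Real.exp_add]
    congr 1
    ring
  have h7 : Real.exp (-(3 * u)) ≤ Real.exp (-(3 / 2 * u)) := Real.exp_le_exp.2 (by linarith)
  have hH0 : (0 : ℝ) ≤ H := Nat.cast_nonneg H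
  have he1 : 0 < Real.exp (-(3 * u)) := Real.exp_pos _
  have he2 : 0 < Real.exp (-u) := Real.exp_pos _
  calc (J.card : ℝ) * (2 * H * Real.exp (-(4 * u)))
      ≤ (2 * t) * (2 * H * Real.exp (-(4 * u))) :=
        mul_le_mul_of_nonneg_right hJc (by positivity)
    _ = H * (4 * (t * Real.exp (-u))) * Real.exp (-(3 * u)) := by rw [h6]; ring
    _ ≤ H * 1 * Real.exp (-(3 / 2 * u)) := by
        apply mul_le_mul _ h7 he1.le (by positivity)
        apply mul_le_mul_of_nonneg_left _ hH0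
        linarith
    _ = H * Real.exp (-(3 / 2 * u)) := by ring

end Pool.Agent.H45.NF
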