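import Pool.Agent.H45.NF.PIGN
import Pool.Agent.H45.PF.WIN

/-! Small norms in a window, all ranges of `y`. -/

set_option autoImplicit false

namespace Pool.Agent.H45.NF

open Polynomial Pool.Agent.Q276.PL Pool.Agent.H45.PF

/-- the points of a window with a small norm -/
def WinZ (l : ℤ[X]) (L Z Y : ℝ) : Set ℤ := {τ : ℤ | |(τ : ℝ)| ≤ L ∧ Squarefree (l.eval τ) ∧
  ∃ x y : ℤ, 1 ≤ y ∧ |((x ^ 2 - l.eval τ * y ^ 2 : ℤ) : ℝ)| ≤ Z ∧ (y : ℝ) ≤ Y}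

theorem winZ_finite (l : ℤ[X]) (L Z Y : ℝ) : (WinZ l L Z Y).Finite := by
  refine (Set.finite_Icc ⌈-L⌉ ⌊L⌋).subset ?_
  rintro d ⟨h1, -⟩
  rw [abs_le] at h1
  exact ⟨Int.ceil_le.2 (by linarith), Int.le_floor.2 h1.2⟩

theorem winn (k : ℕ) (ε : ℝ) (hε : 0 < ε) (hε1 : ε ≤ 1) : ∃ C₉ : ℝ, 1 ≤ C₉ ∧ 1 / ε ≤ C₉ ∧
    ∀ (D σ z Z P₀ y S L : ℝ) (m K : ℕ) (l : ℤ[X]), C₉ ≤ D → 0 ≤ σ →
    C₉ * (2 * σ + 1) ^ 2 ≤ m → C₉ * m ≤ Real.log D → 1 ≤ z → 4 * z ^ 2 ≤ Z →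
    Z ≤ D ^ ((1 : ℝ) / 8) → 1 ≤ P₀ → P₀ ^ K ≤ z →
    L = D ^ (1 / (8 * (m : ℝ))) → P₀ ^ (K + 1) ≤ 2 * L → 1 ≤ y →
    Near k ε D S l → (∀ τ : ℤ, |(τ : ℝ)| ≤ L → D ≤ ((l.eval τ : ℤ) : ℝ)) →
    ((WinZ l L Z (D ^ σ)).ncard : ℝ) ≤ (2 * σ * Real.log D + 1) *
      (C₉ * Z * D ^ (1 / (16 * (m : ℝ))) * ((m : ℝ) ^ 2 * Real.log D) ^ 3 +
        C₉ * (m : ℝ) ^ 3 * Real.log D * (2 * L / P₀ + 1)) +
      4 * L * (y ^ (K + 1))⁻¹ * Real.exp (y * k * (1 + Real.log P₀)) := by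
  classical
  obtain ⟨C, hC1, hC⟩ := pign k ε hε hε1
  have hk0 : (0 : ℝ) ≤ k := Nat.cast_nonneg k
  have hε0 : 0 < 1 / ε := by positivity
  refine ⟨2 * C * (k + 1) + 1 / ε, by nlinarith, by nlinarith, ?_⟩
  intro D σ z Z P₀ y S L m K l hD hσ hσm hCm hz1 hzZ hZD hP hPz hL hPL hy hN hlD
  obtain ⟨C₉, hC₉⟩ : ∃ C₉, C₉ = 2 * C * ((k : ℝ) + 1) + 1 / ε := ⟨_, rfl⟩
  rw [← hC₉] at hD hσm hCm ⊢
  have hCC : C ≤ C₉ := by rw [hC₉]; nlinarith
  have hD1 : 1 ≤ D := by linarith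
  have hDpos : 0 < D := by linarith
  have hlogD : 0 ≤ Real.log D := Real.log_nonneg hD1
  have hm0 : (0 : ℝ) ≤ m := Nat.cast_nonneg m
  have hZ4 : 4 ≤ Z := by nlinarith
  have hL0 : 0 < L := by rw [hL]; exact Real.rpow_pos_of_pos hDpos _
  have hσm' : C * (2 * σ + 1) ^ 2 ≤ m :=
    (mul_le_mul_of_nonneg_right hCC (by positivity)).trans hσm
  have hCm' : C * m ≤ Real.log D := (mul_le_mul_of_nonneg_right hCC hm0).trans hCm
  obtain ⟨B, hB⟩ : ∃ B : Finset ℤ, B = (winZ_finite l L Z (D ^ σ)).toFinset := ⟨_, rfl⟩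
  have hBmem : ∀ τ ∈ B, |(τ : ℝ)| ≤ L ∧ Squarefree (l.eval τ) ∧
      ∃ x y : ℤ, 1 ≤ y ∧ |((x ^ 2 - l.eval τ * y ^ 2 : ℤ) : ℝ)| ≤ Z ∧ (y : ℝ) ≤ D ^ σ := by
    intro τ hτ
    rw [hB, Set.Finite.mem_toFinset] at hτ
    exact hτ
  have hBc : (WinZ l L Z (D ^ σ)).ncard = B.card := by
    rw [hB, Set.ncard_eq_toFinset_card _ (winZ_finite l L Z (D ^ σ))]
  rw [hBc]
  have hBne : ∀ τ ∈ B, l.eval τ ≠ 0 := by
    intro τ hτ h0
    have h1 := hlD τ (hBmem τ hτ).1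
    rw [h0] at h1
    push_cast at h1
    linarith
  have hBR : ∀ a ∈ B, ∀ b ∈ B, (a : ℝ) - b ≤ 2 * L := by
    intro a ha b hb
    have h1 := (abs_le.1 (hBmem a ha).1).2
    have h2 := (abs_le.1 (hBmem b hb).1).1
    linarith
  -- many small prime factors
  obtain ⟨B₀, hB₀⟩ : ∃ B₀ : Finset ℤ, B₀ = B.filter fun τ =>
    K + 1 ≤ ((l.eval τ).natAbs.primeFactors.filter fun p : ℕ => (p : ℝ) ≤ P₀).card := ⟨_, rfl⟩
  have hB₀c : (B₀.card : ℝ) ≤ 4 * L * (y ^ (K + 1))⁻¹ *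
      Real.exp (y * k * (1 + Real.log P₀)) := by
    have h1 := count_small hN.fam.prim hN.fam.deg P₀ (2 * L) y (K + 1) hP hPL hy B₀
      (by
        intro a ha
        rw [hB₀, Finset.mem_filter] at ha
        exact ⟨hBne a ha.1, ha.2⟩)
      (by
        intro a ha b hb
        rw [hB₀, Finset.mem_filter] at ha hb
        exact hBR a ha.1 b hb.1)
    refine h1.trans (le_of_eq ?_)
    ring
  -- the dyadic ranges
  obtain ⟨I, hI⟩ : ∃ I : ℕ, I = ⌊Real.log (D ^ σ) / Real.log 2⌋₊ := ⟨_, rfl⟩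
  obtain ⟨Bi, hBi⟩ : ∃ Bi : ℕ → Finset ℤ, Bi = fun i => B.filter fun τ =>
    (∃ x y : ℤ, FundZ Z (l.eval τ) x y ∧ (2 : ℝ) ^ i ≤ y ∧ (y : ℝ) < 2 * 2 ^ i) ∧ τ ∉ B₀ := ⟨_, rfl⟩
  have hlog2 : (1 : ℝ) / 2 ≤ Real.log 2 := by
    have := Real.log_two_gt_d9
    linarith
  have hlogDσ : Real.log (D ^ σ) = σ * Real.log D := Real.log_rpow hDpos σ
  have hIle : (I : ℝ) ≤ Real.log (D ^ σ) / Real.log 2 := by
    rw [hI]
    apply Nat.floor_le
    rw [hlogDσ]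
    positivity
  have hbi : ∀ i ∈ Finset.range (I + 1), ((Bi i).card : ℝ) ≤
      C * Z * D ^ (1 / (16 * (m : ℝ))) * ((m : ℝ) ^ 2 * Real.log D) ^ 3 +
        C₉ * (m : ℝ) ^ 3 * Real.log D * (2 * L / P₀ + 1) := by
    intro i hi
    rw [Finset.mem_range] at hi
    have hVD : (2 : ℝ) ^ i ≤ D ^ σ := by
      have h1 : (i : ℝ) ≤ Real.log (D ^ σ) / Real.log 2 :=
        le_trans (by exact_mod_cast (by omega : i ≤ I)) hIle
      rw [le_div_iff₀ (by linarith), ← Real.log_pow] at h1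
      exact (Real.log_le_log_iff (by positivity) (by positivity)).1 h1
    obtain ⟨M, hM0, hM, E, hE, hEc, hEg⟩ := hC D (2 ^ i) σ z Z S m l (Bi i) (by linarith) hσ hσm'
      hCm' (one_le_pow₀ (by norm_num)) hVD hz1 hzZ hZD hN (by
        intro τ hτ
        rw [hBi] at hτ
        simp only [Finset.mem_filter] at hτ
        obtain ⟨hτB, hfund, -⟩ := hτ
        have h1 := hBmem τ hτB
        rw [hL] at h1
        exact ⟨h1.1, hlD τ (hL ▸ h1.1), h1.2.1, hfund⟩)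
    have hEB : (((Bi i) \ E).card : ℝ) ≤ Real.log |(M : ℝ)| / Real.log 2 *
        (k * (2 * L / P₀ + 1)) := by
      apply count_big hN.fam.prim hN.fam.deg M hM0 P₀ (2 * L) hP (by positivity)
      · intro τ hτ
        have h1 := hEg τ hτ
        rw [Finset.mem_sdiff] at hτ
        have h2 := hτ.1
        rw [hBi] at h2
        simp only [Finset.mem_filter] at h2
        rcases big_or_small (hBne τ h2.1) (hBmem τ h2.1).2.1 hP hPz h1 with h | h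
        · exact h
        · exfalso
          apply h2.2.2
          rw [hB₀, Finset.mem_filter]
          exact ⟨h2.1, h⟩
      · intro a ha b hb
        rw [Finset.mem_sdiff, hBi] at ha hb
        simp only [Finset.mem_filter] at ha hb
        exact hBR a ha.1.1 b hb.1.1
    have h3 : ((Bi i).card : ℝ) ≤ E.card + ((Bi i) \ E).card := by
      have h4 := Finset.card_sdiff_add_card_eq_card hE
      have h5 : ((Bi i).card : ℝ) = (((Bi i) \ E).card : ℝ) + E.card := by exact_mod_cast h4.symm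
      linarith
    refine h3.trans (add_le_add hEc (hEB.trans ?_))
    have h6 : 0 ≤ 2 * L / P₀ + 1 := by positivity
    have h7 : Real.log |(M : ℝ)| / Real.log 2 ≤ 2 * C * (m : ℝ) ^ 3 * Real.log D := by
      rw [div_le_iff₀ (by linarith)]
      have h8 : 0 ≤ C * (m : ℝ) ^ 3 * Real.log D := by positivity
      nlinarith
    calc Real.log |(M : ℝ)| / Real.log 2 * (k * (2 * L / P₀ + 1))
        ≤ (2 * C * (m : ℝ) ^ 3 * Real.log D) * (k * (2 * L / P₀ + 1)) :=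
          mul_le_mul_of_nonneg_right h7 (by positivity)
      _ = (2 * C * k) * ((m : ℝ) ^ 3 * Real.log D * (2 * L / P₀ + 1)) := by ring
      _ ≤ C₉ * ((m : ℝ) ^ 3 * Real.log D * (2 * L / P₀ + 1)) := by
          apply mul_le_mul_of_nonneg_right _ (by positivity)
          rw [hC₉]
          nlinarith
      _ = C₉ * (m : ℝ) ^ 3 * Real.log D * (2 * L / P₀ + 1) := by ring
  have hsub : B ⊆ B₀ ∪ (Finset.range (I + 1)).biUnion Bi := by
    intro τ hτ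
    rw [Finset.mem_union]
    by_cases h0 : τ ∈ B₀
    · exact Or.inl h0
    · right
      obtain ⟨-, -, x', y', hy1', hn', hy'⟩ := hBmem τ hτ
      obtain ⟨x, y'', hf, hle⟩ := exists_fundZ hy1' hn'
      have hy'' : (y'' : ℝ) ≤ D ^ σ := le_trans (by exact_mod_cast hle) hy'
      obtain ⟨i, hi, hi1, hi2⟩ := dyad hf.2.1 hy''
      rw [Finset.mem_biUnion]
      refine ⟨i, ?_, ?_⟩
      · rw [Finset.mem_range, hI]
        omega
      · rw [hBi]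
        simp only [Finset.mem_filter]
        exact ⟨hτ, ⟨x, y'', hf, hi1, hi2⟩, h0⟩
  have h1 : (B.card : ℝ) ≤ B₀.card + ∑ i ∈ Finset.range (I + 1), ((Bi i).card : ℝ) := by
    have h2 := (Finset.card_le_card hsub).trans (Finset.card_union_le _ _)
    have h3 : ((Finset.range (I + 1)).biUnion Bi).card ≤ ∑ i ∈ Finset.range (I + 1), (Bi i).card :=
      Finset.card_biUnion_le
    exact_mod_cast h2.trans (Nat.add_le_add_left h3 _)
  have h2 := Finset.sum_le_sum hbi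
  rw [Finset.sum_const, Finset.card_range, nsmul_eq_mul] at h2
  have hI2 : (((I + 1 : ℕ) : ℕ) : ℝ) ≤ 2 * σ * Real.log D + 1 := by
    push_cast
    have h3 : Real.log (D ^ σ) / Real.log 2 ≤ 2 * σ * Real.log D := by
      rw [div_le_iff₀ (by linarith), hlogDσ]
      have : 0 ≤ σ * Real.log D := by positivity
      nlinarith
    linarith
  have hX1 : 0 ≤ Z * D ^ (1 / (16 * (m : ℝ))) * ((m : ℝ) ^ 2 * Real.log D) ^ 3 := by
    have : 0 ≤ D ^ (1 / (16 * (m : ℝ))) := Real.rpow_nonneg (by linarith) _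
    positivity
  have hX2 : 0 ≤ C₉ * (m : ℝ) ^ 3 * Real.log D * (2 * L / P₀ + 1) := by
    have : 0 ≤ C₉ := by linarith
    positivity
  have hX3 : C * Z * D ^ (1 / (16 * (m : ℝ))) * ((m : ℝ) ^ 2 * Real.log D) ^ 3 ≤
      C₉ * Z * D ^ (1 / (16 * (m : ℝ))) * ((m : ℝ) ^ 2 * Real.log D) ^ 3 := by
    have h3 := mul_le_mul_of_nonneg_right hCC hX1
    calc C * Z * D ^ (1 / (16 * (m : ℝ))) * ((m : ℝ) ^ 2 * Real.log D) ^ 3
        = C * (Z * D ^ (1 / (16 * (m : ℝ))) * ((m : ℝ) ^ 2 * Real.log D) ^ 3) := by ring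
      _ ≤ C₉ * (Z * D ^ (1 / (16 * (m : ℝ))) * ((m : ℝ) ^ 2 * Real.log D) ^ 3) := h3
      _ = _ := by ring
  have hX4 : 0 ≤ C * Z * D ^ (1 / (16 * (m : ℝ))) * ((m : ℝ) ^ 2 * Real.log D) ^ 3 := by
    have : 0 ≤ D ^ (1 / (16 * (m : ℝ))) := Real.rpow_nonneg (by linarith) _
    positivity
  have h3 := mul_le_mul hI2 (add_le_add_right hX3 (C₉ * (m : ℝ) ^ 3 * Real.log D * (2 * L / P₀ + 1)))
    (by linarith) (by positivity)
  rw [add_comm (C₉ * (m : ℝ) ^ 3 * Real.log D * (2 * L / P₀ + 1)),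
    add_comm (C₉ * (m : ℝ) ^ 3 * Real.log D * (2 * L / P₀ + 1))] at h3
  linarith

end Pool.Agent.H45.NF
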