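import Pool.Agent.H45.NF.FINN
import Pool.Agent.H45.Lib.Ts3997aac3.Q263.CN.Disc

/-! Small norms: algebraic integers. -/

set_option autoImplicit false

namespace Pool.Agent.H45.NF

open Polynomial Pool.Agent.Q276.PL Pool.Agent.H45.PF Filter Topology NumberField Module
open Q263.CN

/-- the coordinates are bounded by the conjugates -/
theorem big_conj {K : Type} [Field K] [NumberField K] (h2 : finrank ℚ K = 2) {d : ℕ} {x : K}
    (hx : x ^ 2 = ((d : ℤ) : K)) (b : Basis (Fin 2) ℚ K) (h0 : b 0 = 1) (h1 : b 1 = x)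
    (α : K) (t s : ℤ) (hα : α = ((t / 2 : ℚ) : K) + ((s / 2 : ℚ) : K) * x) (B : ℝ)
    (hd : 0 < d) (hB : ∀ φ : K →+* ℂ, ‖φ α‖ ≤ B) : |(s : ℝ)| * √(d : ℝ) ≤ 2 * B := by
  have htr : Algebra.trace ℚ K (α * x) = d * s := by
    have h3 : α * x = ((d * s / 2 : ℚ) : K) + ((t / 2 : ℚ) : K) * x := by
      rw [hα]
      push_cast
      push_cast at hx
      linear_combination (s / 2 : K) * hx
    rw [h3, tr hx b h0 h1]
    ring
  have hsum := trace_eq_sum_embeddings (K := ℚ) (L := K) ℂ (x := α * x)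
  rw [htr] at hsum
  have hcard : Fintype.card (K →ₐ[ℚ] ℂ) = 2 := by
    rw [AlgHom.card, h2]
  have hd0 : (0 : ℝ) < d := by exact_mod_cast hd
  have hx' : ∀ σ : K →ₐ[ℚ] ℂ, ‖σ x‖ = √(d : ℝ) := by
    intro σ
    have h3 : ‖σ x‖ ^ 2 = d := by
      rw [← norm_pow, ← map_pow, hx]
      simp
    rw [← h3, Real.sqrt_sq (norm_nonneg _)]
  have h3 : ‖((d * s : ℚ) : ℂ)‖ ≤ 2 * (B * √(d : ℝ)) := by
    have h4 : ((d * s : ℚ) : ℂ) = ∑ σ : K →ₐ[ℚ] ℂ, σ (α * x) := by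
      rw [← hsum]
      rfl
    rw [h4]
    refine (norm_sum_le _ _).trans ?_
    calc ∑ σ : K →ₐ[ℚ] ℂ, ‖σ (α * x)‖ ≤ ∑ _σ : K →ₐ[ℚ] ℂ, B * √(d : ℝ) := by
          apply Finset.sum_le_sum
          intro σ _
          rw [map_mul, norm_mul, hx' σ]
          exact mul_le_mul_of_nonneg_right (hB (σ : K →+* ℂ)) (Real.sqrt_nonneg _)
      _ = 2 * (B * √(d : ℝ)) := by
          rw [Finset.sum_const, Finset.card_univ, hcard, nsmul_eq_mul]
          norm_num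
  have h5 : ‖((d * s : ℚ) : ℂ)‖ = |(s : ℝ)| * d := by
    have h6 : ((d * s : ℚ) : ℂ) = (((d * s : ℝ)) : ℂ) := by push_cast; ring
    rw [h6, Complex.norm_real, Real.norm_eq_abs, abs_mul, abs_of_pos hd0]
    ring
  rw [h5] at h3
  have hsq : √(d : ℝ) * √(d : ℝ) = d := Real.mul_self_sqrt hd0.le
  have hs0 : 0 < √(d : ℝ) := Real.sqrt_pos.2 hd0
  have h6 : (|(s : ℝ)| * √(d : ℝ)) * √(d : ℝ) ≤ (2 * B) * √(d : ℝ) := by
    calc (|(s : ℝ)| * √(d : ℝ)) * √(d : ℝ) = |(s : ℝ)| * (√(d : ℝ) * √(d : ℝ)) := by ring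
      _ = |(s : ℝ)| * d := by rw [hsq]
      _ ≤ 2 * (B * √(d : ℝ)) := h3
      _ = (2 * B) * √(d : ℝ) := by ring
  exact le_of_mul_le_mul_right h6 hs0

/-- norms of the non-rational integers of the fields `ℚ(√d)` with small conjugates are large -/
def BigNorm (N : ℕ) (c δ : ℝ) (K : Type) [Field K] [NumberField K] : Prop :=
  ∀ (α : 𝓞 K) (B : ℝ), (∀ n : ℤ, α ≠ n) → B ≤ Real.log N ^ (3 / 2 - δ) →
    (∀ φ : K →+* ℂ, ‖φ α‖ ≤ Real.exp B) →
    Real.exp (c * (Real.log N ^ 3 / B ^ 2)) ≤ |((Algebra.norm ℤ α : ℤ) : ℝ)|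

theorem algn : ∃ c : ℝ, 0 < c ∧ ∀ δ : ℝ, 0 < δ → δ < 1 / 2 → ∃ N₀ : ℕ, ∀ N ≥ N₀,
    ({d : ℕ | N < d ∧ d ≤ 2 * N ∧ Squarefree d ∧ ¬ ∀ (K : Type) [Field K] [NumberField K],
      finrank ℚ K = 2 → (∃ x : K, x ^ 2 = (d : K)) → BigNorm N c δ K}.ncard : ℝ) ≤
        N * Real.exp (-(Real.log N ^ (δ / 2))) := by
  obtain ⟨c, hc, hI⟩ := interval3
  refine ⟨c / 18, by positivity, fun δ hδ hδ2 => ?_⟩
  obtain ⟨N₁, hN₁⟩ := hI δ hδ hδ2
  obtain ⟨N₀, hN₀⟩ := Filter.eventually_atTop.1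
    ((nlim 1 one_pos).eventually (eventually_ge_atTop 6) |>.and
      (((nlim (2 * δ) (by positivity)).eventually (eventually_ge_atTop (36 / c))).and
      (eventually_ge_atTop 1)))
  refine ⟨max N₁ N₀, fun N hN => ?_⟩
  obtain ⟨h1, h2, h3⟩ := hN₀ N (le_of_max_le_right hN)
  rw [Real.rpow_one] at h1
  have hN0 : (0 : ℝ) < N := by exact_mod_cast h3
  refine le_trans ?_ (hN₁ N (le_of_max_le_left hN))
  obtain ⟨t, ht⟩ : ∃ t, t = Real.log N := ⟨_, rfl⟩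
  rw [← ht] at h1 h2 ⊢
  have ht0 : 0 < t := by linarith
  have hcard := Set.ncard_le_ncard (s := {d : ℕ | N < d ∧ d ≤ 2 * N ∧ Squarefree d ∧
      ¬ ∀ (K : Type) [Field K] [NumberField K],
      finrank ℚ K = 2 → (∃ x : K, x ^ 2 = (d : K)) → BigNorm N (c / 18) δ K})
    (t := Bad3 N N c t (t ^ (3 / 2 - δ))) ?_ (bad3_finite _ _ _ _ _)
  · exact_mod_cast hcard
  rintro d ⟨h5, h6, h7, h8⟩
  by_contra hcon
  apply h8
  intro K _ _ hrk ⟨x, hx⟩ α B hα hBT hconj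
  rw [← ht] at hBT ⊢
  have hsd : Squarefree (d : ℤ) := Int.squarefree_natCast.2 h7
  have hd1 : (1 : ℤ) < d := by
    have : 1 < d := by omega
    exact_mod_cast this
  have hx' : x ^ 2 = ((d : ℤ) : K) := by rw [hx]; push_cast; rfl
  obtain ⟨b, hb0, hb1⟩ := exists_basis hd1.ne' hsd hrk x hx'
  obtain ⟨a, s, hαs, hnorm⟩ := int_coord' hx' b hb0 hb1 hsd α
  have hs0 : s ≠ 0 := by
    rintro rfl
    have h9 : Even a := by
      have h10 : Even (a ^ 2) := ⟨2 * Algebra.norm ℤ α, by linarith⟩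
      exact (Int.even_pow.1 h10).1
    obtain ⟨a', ha'⟩ := h9
    apply hα a'
    apply RingOfIntegers.ext
    have h11 : ((a' : 𝓞 K) : K) = (a' : K) := map_intCast (algebraMap (𝓞 K) K) a'
    rw [hαs, ha', h11]
    push_cast
    ring
  have hd0 : 0 < d := by omega
  have hbc := big_conj hrk hx' b hb0 hb1 (α : K) a s hαs (Real.exp B) hd0 hconj
  have hy1 : 1 ≤ |s| := Int.one_le_abs hs0
  have hyr : (((|s| : ℤ)) : ℝ) = |(s : ℝ)| := by push_cast; rfl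
  have hy1r : (1 : ℝ) ≤ |(s : ℝ)| := by rw [← hyr]; exact_mod_cast hy1
  have hdN : (N : ℝ) ≤ d := by exact_mod_cast h5.le
  have hsq : Real.exp (t / 2) ≤ √(d : ℝ) := by
    have h9 : Real.exp (t / 2) = √(N : ℝ) := by
      rw [Real.sqrt_eq_rpow, Real.rpow_def_of_pos hN0, ← ht]
      congr 1
      ring
    rw [h9]
    exact Real.sqrt_le_sqrt hdN
  have h9 : |(s : ℝ)| * Real.exp (t / 2) ≤ 2 * Real.exp B :=
    (mul_le_mul_of_nonneg_left hsq (abs_nonneg _)).trans hbc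
  have hlog2 : Real.log 2 ≤ 7 / 10 := by
    have := Real.log_two_lt_d9
    linarith
  have hlogy : Real.log |(s : ℝ)| + t / 2 ≤ Real.log 2 + B := by
    have h10 := Real.log_le_log (by positivity) h9
    rwa [Real.log_mul (by positivity) (Real.exp_pos _).ne', Real.log_exp,
      Real.log_mul (by norm_num) (Real.exp_pos _).ne', Real.log_exp] at h10
  have hlogy0 : 0 ≤ Real.log |(s : ℝ)| := Real.log_nonneg hy1r
  have hB2 : 2 ≤ B := by linarith
  have hnb : ¬ |(((a ^ 2 - (d : ℤ) * |s| ^ 2 : ℤ)) : ℝ)| ≤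
      Real.exp (c * (t ^ 3 / (t + Real.log (((|s| : ℤ)) : ℝ)) ^ 2)) := by
    intro h10
    apply hcon
    refine ⟨h5, by omega, hsd, a, |s|, hy1, ?_, h10⟩
    rw [hyr]
    linarith
  push Not at hnb
  rw [sq_abs, hnorm, hyr] at hnb
  push_cast at hnb
  rw [abs_mul, abs_of_pos (by norm_num : (0 : ℝ) < 4)] at hnb
  have h10 : t + Real.log |(s : ℝ)| ≤ 3 * B := by linarith
  have h11 : (t + Real.log |(s : ℝ)|) ^ 2 ≤ (3 * B) ^ 2 :=
    pow_le_pow_left₀ (by positivity) h10 2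
  have h12 : t ^ 3 / (3 * B) ^ 2 ≤ t ^ 3 / (t + Real.log |(s : ℝ)|) ^ 2 :=
    div_le_div_of_nonneg_left (by positivity) (by positivity) h11
  have hT : 36 / c ≤ t ^ 3 / B ^ 2 := by
    refine h2.trans ?_
    rw [le_div_iff₀ (by positivity)]
    have h13 : B ^ 2 ≤ (t ^ (3 / 2 - δ)) ^ 2 := pow_le_pow_left₀ (by linarith) hBT 2
    calc t ^ (2 * δ) * B ^ 2 ≤ t ^ (2 * δ) * (t ^ (3 / 2 - δ)) ^ 2 := by gcongr
      _ = t ^ 3 := by
          rw [← Real.rpow_natCast, ← Real.rpow_natCast, ← Real.rpow_mul ht0.le,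
            ← Real.rpow_add ht0]
          congr 1
          push_cast
          ring
  have h14 : c / 18 * (t ^ 3 / B ^ 2) + 2 ≤ c * (t ^ 3 / (t + Real.log |(s : ℝ)|) ^ 2) := by
    have h15 : t ^ 3 / (3 * B) ^ 2 = (t ^ 3 / B ^ 2) / 9 := by
      rw [mul_pow]
      field_simp
      norm_num
    have h16 := mul_le_mul_of_nonneg_left h12 hc.le
    rw [h15] at h16
    have h17 : 36 ≤ c * (t ^ 3 / B ^ 2) := by
      rw [div_le_iff₀ hc] at hT
      linarith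
    linarith
  have h15 : 4 * Real.exp (c / 18 * (t ^ 3 / B ^ 2)) ≤
      Real.exp (c * (t ^ 3 / (t + Real.log |(s : ℝ)|) ^ 2)) := by
    refine le_trans ?_ (Real.exp_le_exp.2 h14)
    rw [Real.exp_add, mul_comm]
    apply mul_le_mul_of_nonneg_left _ (Real.exp_pos _).le
    have h16 : Real.exp 2 = Real.exp 1 * Real.exp 1 := by
      rw [← Real.exp_add]
      norm_num
    have h17 := Real.exp_one_gt_d9
    rw [h16]
    nlinarith
  linarith

end Pool.Agent.H45.NF
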