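import Pool.Agent.H45.NF.WINN
import Pool.Agent.H45.PF.BLKF

/-! Small norms in a window, with all parameters chosen. -/

set_option autoImplicit false

namespace Pool.Agent.H45.NF

open Polynomial Pool.Agent.Q276.PL Pool.Agent.H45.PF Filter Topology

theorem blkn (k : ℕ) (ε : ℝ) (hε : 0 < ε) (hε1 : ε ≤ 1) : ∃ c : ℝ, 0 < c ∧
    ∀ δ : ℝ, 0 < δ → δ < 1 / 2 → ∃ D₁ : ℝ, 1 ≤ D₁ ∧ ∀ D : ℝ, D₁ ≤ D →
      ∀ σ : ℝ, 1 ≤ σ → σ ≤ Real.log D ^ (1 / 2 - δ) → ∃ L : ℝ, 1 ≤ L ∧ L ≤ D ^ (ε / 2) ∧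
      ∀ (S : ℝ) (l : ℤ[X]), Near k ε D S l → (∀ τ : ℤ, |(τ : ℝ)| ≤ L → D ≤ ((l.eval τ : ℤ) : ℝ)) →
      ((WinZ l L (Real.exp (c * (Real.log D / σ ^ 2))) (D ^ σ)).ncard : ℝ) ≤
        L * Real.exp (-(Real.log D ^ (2 * δ / 3))) := by
  obtain ⟨C, hC, hCε, hW⟩ := winn k ε hε hε1
  refine ⟨1 / (320 * C), by positivity, ?_⟩
  intro δ hδ hδ2
  obtain ⟨D₁, hD₁⟩ := Filter.eventually_atTop.1
    ((asym1 δ (3 * (10 ^ 6 * C ^ 7 + 3000 * C ^ 4) + 4) hδ (by positivity)).and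
      (((loglim (2 * δ) (by positivity)).eventually (eventually_ge_atTop (10 * C * C + 1280 * C))).and
      (((loglim (5 * δ / 4) (by positivity)).eventually (eventually_ge_atTop (320 * C))).and
      (((loglim (δ / 2) (by positivity)).eventually
        (eventually_ge_atTop (1280 * C * (6 * k + 1)))).and
      ((Real.tendsto_log_atTop.eventually (eventually_ge_atTop 1)).and
      (eventually_ge_atTop C))))))
  refine ⟨max 1 D₁, le_max_left _ _, fun D hD σ hσ1 hσ2 => ?_⟩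
  obtain ⟨hA, h2, h3, h3', h4, h5⟩ := hD₁ D ((le_max_right _ _).trans hD)
  have hD1 : 1 ≤ D := (le_max_left _ _).trans hD
  have hD0 : 0 < D := by linarith
  obtain ⟨l, hl⟩ : ∃ l, l = Real.log D := ⟨_, rfl⟩
  rw [← hl] at hA h2 h3 h3' h4 hσ2 ⊢
  have hl0 : 0 < l := by linarith
  have hDl : D = Real.exp l := by rw [hl, Real.exp_log hD0]
  have hs1 : 1 ≤ σ ^ 2 := one_le_pow₀ hσ1
  have hσσ : σ ^ 2 ≤ l ^ (1 - 2 * δ) := by
    have h6 : (l ^ (1 / 2 - δ)) ^ 2 = l ^ (1 - 2 * δ) := by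
      rw [← Real.rpow_natCast, ← Real.rpow_mul hl0.le]
      congr 1
      push_cast
      ring
    rw [← h6]
    exact pow_le_pow_left₀ (by linarith) hσ2 2
  have hσl : σ ≤ l := by
    refine hσ2.trans ?_
    calc l ^ (1 / 2 - δ) ≤ l ^ (1 : ℝ) := Real.rpow_le_rpow_of_exponent_le h4 (by linarith)
      _ = l := Real.rpow_one l
  have hσ2l : σ ^ 2 ≤ l := by
    refine hσσ.trans ?_
    calc l ^ (1 - 2 * δ) ≤ l ^ (1 : ℝ) := Real.rpow_le_rpow_of_exponent_le h4 (by linarith)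
      _ = l := Real.rpow_one l
  have hl2δ : 0 < l ^ (2 * δ) := Real.rpow_pos_of_pos hl0 _
  have hσ3 : l ^ (2 * δ) * σ ^ 2 ≤ l := by
    calc l ^ (2 * δ) * σ ^ 2 ≤ l ^ (2 * δ) * l ^ (1 - 2 * δ) :=
          mul_le_mul_of_nonneg_left hσσ hl2δ.le
      _ = l := by
          rw [← Real.rpow_add hl0]
          rw [show 2 * δ + (1 - 2 * δ) = (1 : ℝ) by ring, Real.rpow_one]
  obtain ⟨m, hm⟩ : ∃ m : ℕ, m = ⌈C * (2 * σ + 1) ^ 2⌉₊ := ⟨_, rfl⟩
  have hmlo : C * (2 * σ + 1) ^ 2 ≤ m := by rw [hm]; exact Nat.le_ceil _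
  have hs9 : (2 * σ + 1) ^ 2 ≤ 9 * σ ^ 2 := by nlinarith
  have hs9' : 9 ≤ (2 * σ + 1) ^ 2 := by nlinarith
  have hCs : σ ^ 2 ≤ C * σ ^ 2 := le_mul_of_one_le_left (by positivity) hC
  have hmhi : (m : ℝ) ≤ 10 * C * σ ^ 2 := by
    have h6 : (m : ℝ) < C * (2 * σ + 1) ^ 2 + 1 := by
      rw [hm]
      exact Nat.ceil_lt_add_one (by positivity)
    have h7 : C * (2 * σ + 1) ^ 2 ≤ C * (9 * σ ^ 2) := mul_le_mul_of_nonneg_left hs9 (by linarith)
    linarith
  have hmC : 9 * C ≤ m := by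
    have h7 : C * 9 ≤ C * (2 * σ + 1) ^ 2 := mul_le_mul_of_nonneg_left hs9' (by linarith)
    linarith
  have hm1 : (1 : ℝ) ≤ m := by linarith
  have hm0 : (0 : ℝ) < m := by linarith
  have hC2 : 0 ≤ C * C := by positivity
  have hCm : C * m ≤ l := by
    calc C * m ≤ C * (10 * C * σ ^ 2) := mul_le_mul_of_nonneg_left hmhi (by linarith)
      _ = (10 * C * C) * σ ^ 2 := by ring
      _ ≤ l ^ (2 * δ) * σ ^ 2 := mul_le_mul_of_nonneg_right (by linarith) (by positivity)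
      _ ≤ l := hσ3
  obtain ⟨w, hw⟩ : ∃ w, w = l / (8 * m) := ⟨_, rfl⟩
  have hwσ : l / (80 * C * σ ^ 2) ≤ w := by
    rw [hw]
    apply div_le_div_of_nonneg_left hl0.le (by positivity)
    linarith
  have hwlo : l ^ (2 * δ) / (80 * C) ≤ w := by
    refine le_trans ?_ hwσ
    rw [div_le_div_iff₀ (by positivity) (by positivity)]
    calc l ^ (2 * δ) * (80 * C * σ ^ 2) = (l ^ (2 * δ) * σ ^ 2) * (80 * C) := by ring
      _ ≤ l * (80 * C) := mul_le_mul_of_nonneg_right hσ3 (by positivity)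
  have hw0 : 0 < w := by rw [hw]; positivity
  have hwl : w ≤ l / 8 := by
    rw [hw]
    apply div_le_div_of_nonneg_left hl0.le (by norm_num)
    linarith
  have hw16 : 16 ≤ w := by
    refine le_trans ?_ hwlo
    rw [le_div_iff₀ (by positivity)]
    linarith
  obtain ⟨t, ht⟩ : ∃ t, t = l ^ (3 * δ / 4) := ⟨_, rfl⟩
  rw [← ht] at hA
  have ht1 : 1 ≤ t := by rw [ht]; exact Real.one_le_rpow h4 (by positivity)
  have ht0 : 0 < t := by linarith
  have h2t : l ^ (2 * δ) = t * l ^ (5 * δ / 4) := by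
    rw [ht, ← Real.rpow_add hl0]
    congr 1
    ring
  have h54 : l ^ (5 * δ / 4) = t * l ^ (δ / 2) := by
    rw [ht, ← Real.rpow_add hl0]
    congr 1
    ring
  have htw : t ≤ w / 4 := by
    have h6 : t ≤ l ^ (2 * δ) / (320 * C) := by
      rw [le_div_iff₀ (by positivity), h2t]
      exact mul_le_mul_of_nonneg_left h3 ht0.le
    have h7 : l ^ (2 * δ) / (320 * C) = l ^ (2 * δ) / (80 * C) / 4 := by
      rw [div_div]
      congr 1
      ring
    linarith
  obtain ⟨K, hK⟩ : ∃ K : ℕ, K = ⌊(w / 8 - 1) / t⌋₊ := ⟨_, rfl⟩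
  have hw8 : 0 ≤ w / 8 - 1 := by linarith
  have hK1 : (K : ℝ) * t ≤ w / 8 - 1 := by
    rw [← le_div_iff₀ ht0, hK]
    exact Nat.floor_le (by positivity)
  have hK2 : (w / 8 - 1) / t ≤ ((K + 1 : ℕ) : ℝ) := by
    rw [hK]
    push_cast
    exact (Nat.lt_floor_add_one _).le
  have hk0 : (0 : ℝ) ≤ k := Nat.cast_nonneg k
  have hK3 : (3 * k * (1 + t)) + t ≤ ((K + 1 : ℕ) : ℝ) := by
    refine le_trans ?_ hK2
    rw [le_div_iff₀ ht0]
    have h6 : (3 * k * (1 + t)) + t ≤ (6 * k + 1) * t := by nlinarith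
    calc ((3 * k * (1 + t)) + t) * t ≤ ((6 * k + 1) * t) * t :=
          mul_le_mul_of_nonneg_right h6 ht0.le
      _ ≤ (l ^ (2 * δ) / (80 * C)) / 16 := by
          rw [le_div_iff₀ (by norm_num), le_div_iff₀ (by positivity), h2t, h54]
          calc (6 * k + 1) * t * t * 16 * (80 * C) = t * (t * (1280 * C * (6 * k + 1))) := by ring
            _ ≤ t * (t * l ^ (δ / 2)) := by gcongr
      _ ≤ w / 16 := by linarith
      _ ≤ w / 8 - 1 := by linarith
  have hL : D ^ (1 / (8 * (m : ℝ))) = Real.exp w := by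
    rw [Real.rpow_def_of_pos hD0, ← hl, hw]
    congr 1
    ring
  have hL2 : D ^ (1 / (16 * (m : ℝ))) = Real.exp (w / 2) := by
    rw [Real.rpow_def_of_pos hD0, ← hl, hw]
    congr 1
    field_simp
    norm_num
  refine ⟨Real.exp w, Real.one_le_exp hw0.le, ?_, ?_⟩
  · rw [← hL]
    apply Real.rpow_le_rpow_of_exponent_le hD1
    have h6 : 1 / ε ≤ m := by linarith
    rw [div_le_iff₀ hε] at h6
    rw [div_le_div_iff₀ (by positivity) (by norm_num)]
    linarith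
  intro S P hN hlD
  have hexp1 : 2 * Real.exp (w / 8 - 1) ≤ Real.exp (w / 8) := by
    have h6 : Real.exp (w / 8) = Real.exp (w / 8 - 1) * Real.exp 1 := by
      rw [← Real.exp_add]
      congr 1
      ring
    rw [h6]
    have h7 := Real.add_one_le_exp (1 : ℝ)
    nlinarith [Real.exp_pos (w / 8 - 1)]
  have hT := hW D σ (Real.exp (w / 8) / 2) (Real.exp (w / 4)) (Real.exp t) 3 S (Real.exp w) m K P
    h5 (by linarith) hmlo
    (by rw [← hl]; exact hCm)
    (by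
      have h6 := Real.one_le_exp hw8
      linarith)
    (by
      have h6 : Real.exp (w / 4) = Real.exp (w / 8) * Real.exp (w / 8) := by
        rw [← Real.exp_add]
        congr 1
        ring
      rw [h6]
      apply le_of_eq
      ring)
    (by
      rw [Real.rpow_def_of_pos hD0, ← hl]
      exact Real.exp_le_exp.2 (by linarith))
    (Real.one_le_exp ht0.le)
    (by
      rw [← Real.exp_nat_mul]
      have h6 := Real.exp_le_exp.2 hK1
      linarith) hL.symm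
    (by
      rw [← Real.exp_nat_mul]
      have h6 : Real.exp (((K + 1 : ℕ) : ℝ) * t) ≤ Real.exp w := by
        apply Real.exp_le_exp.2
        push_cast
        linarith
      have := Real.exp_pos w
      linarith) (by norm_num) hN hlD
  rw [hL2, ← hl, Real.log_exp] at hT
  have h3K : ((3 : ℝ) ^ (K + 1))⁻¹ ≤ Real.exp (-((K + 1 : ℕ) : ℝ)) := by
    rw [Real.exp_neg]
    apply inv_anti₀ (Real.exp_pos _)
    have h6 : Real.exp (((K + 1 : ℕ) : ℝ)) = Real.exp 1 ^ (K + 1) := by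
      rw [← Real.exp_nat_mul, mul_one]
    rw [h6]
    apply pow_le_pow_left₀ (Real.exp_pos _).le
    have := Real.exp_one_lt_d9
    linarith
  have hpar := params (C := C) (l := l) (t := t) (w := w) (σ := σ) (m := m)
    (z := Real.exp (w / 4)) (k := k) (K := ((K + 1 : ℕ) : ℝ)) (e := Real.exp (-t)) hC h4 hσ1 hσl hm1
    (by
      refine hmhi.trans ?_
      exact mul_le_mul_of_nonneg_left hσ2l (by linarith)) ht1 htw rfl rfl hK3
  have hsub : (WinZ P (Real.exp w) (Real.exp (1 / (320 * C) * (l / σ ^ 2))) (D ^ σ)).ncard ≤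
      (WinZ P (Real.exp w) (Real.exp (w / 4)) (D ^ σ)).ncard := by
    apply Set.ncard_le_ncard _ (winZ_finite _ _ _ _)
    rintro τ ⟨h7, h8, x, y, h9, h10, h11⟩
    refine ⟨h7, h8, x, y, h9, h10.trans ?_, h11⟩
    apply Real.exp_le_exp.2
    have h12 : 1 / (320 * C) * (l / σ ^ 2) = l / (80 * C * σ ^ 2) / 4 := by
      field_simp
      norm_num
    rw [h12]
    linarith
  have hsub' : ((WinZ P (Real.exp w) (Real.exp (1 / (320 * C) * (l / σ ^ 2))) (D ^ σ)).ncard : ℝ) ≤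
      (WinZ P (Real.exp w) (Real.exp (w / 4)) (D ^ σ)).ncard := by exact_mod_cast hsub
  refine hsub'.trans (hT.trans (le_trans ?_ (hpar.trans ?_)))
  · gcongr
  · exact mul_le_mul_of_nonneg_left hA (Real.exp_pos _).le

end Pool.Agent.H45.NF
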