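import Pool.Agent.H45.NF.COVN

/-! Small norms: dyadic intervals. -/

set_option autoImplicit false

namespace Pool.Agent.H45.NF

open Polynomial Pool.Agent.Q276.PL Pool.Agent.H45.PF Filter Topology

theorem interval3 : ∃ c : ℝ, 0 < c ∧ ∀ δ : ℝ, 0 < δ → δ < 1 / 2 → ∃ N₀ : ℕ, ∀ N ≥ N₀,
      ((Bad3 N N c (Real.log N) (Real.log N ^ (3 / 2 - δ))).ncard : ℝ) ≤
        N * Real.exp (-(Real.log N ^ (δ / 2))) := by
  classical
  obtain ⟨c, hc, hblk⟩ := block3
  refine ⟨c, hc, fun δ hδ hδ2 => ?_⟩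
  obtain ⟨N₁, hN₁⟩ := hblk δ hδ hδ2
  obtain ⟨N₀, hN₀⟩ := Filter.eventually_atTop.1
    ((tendsto_natCast_atTop_atTop (R := ℝ)).eventually
      (eventually_ge_atTop ((N₁ : ℝ) + 10000)) |>.and
      ((nlim (δ / 2) (by positivity)).eventually (eventually_ge_atTop 2)))
  refine ⟨N₀, fun N hN => ?_⟩
  obtain ⟨h1, h2⟩ := hN₀ N hN
  have hN₁0 : (0 : ℝ) ≤ N₁ := Nat.cast_nonneg _
  have hN1r : (N₁ : ℝ) ≤ N := by linarith
  have hNN : N₁ ≤ N := by exact_mod_cast hN1r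
  have hNbig : (10000 : ℝ) ≤ N := by linarith
  have hNbig' : 10000 ≤ N := by exact_mod_cast hNbig
  have hN0 : (0 : ℝ) < N := by linarith
  obtain ⟨t, ht⟩ : ∃ t, t = Real.log N := ⟨_, rfl⟩
  rw [← ht] at h2 ⊢
  obtain ⟨M, hM⟩ : ∃ M : ℕ, M = N / 16 := ⟨_, rfl⟩
  have hM16 : 16 * M ≤ N := by rw [hM]; exact Nat.mul_div_le _ _
  have hM17 : N < 16 * (M + 1) := by rw [hM]; omega
  have hM1 : 1 ≤ M := by omega
  obtain ⟨q, hq⟩ : ∃ q : ℕ, q = N / M + 1 := ⟨_, rfl⟩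
  have hq1 : q * M ≤ 2 * N := by
    rw [hq, add_mul, one_mul]
    have := Nat.div_mul_le_self N M
    omega
  obtain ⟨s, hs⟩ : ∃ s, s = t ^ (3 / 2 - δ) := ⟨_, rfl⟩
  rw [← hs]
  have hsub : Bad3 N N c t s ⊆ ⋃ i ∈ Finset.range q, Bad3 (N + i * M) M c t s := by
    rintro n ⟨h5, h6, h7⟩
    simp only [Set.mem_iUnion, Finset.mem_range]
    refine ⟨(n - N - 1) / M, ?_, ?_, ?_, h7⟩
    · rw [hq]
      have h8 : (n - N - 1) / M ≤ N / M := Nat.div_le_div_right (by omega)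
      omega
    · have h8 := Nat.div_mul_le_self (n - N - 1) M
      omega
    · have h8 := Nat.lt_div_mul_add (a := n - N - 1) (b := M) (by omega)
      omega
  have hMr : (N : ℝ) / 16 - 1 ≤ M := by
    have h3 : (N : ℝ) < 16 * (M + 1) := by exact_mod_cast hM17
    linarith
  have hblk' : ∀ i ∈ Finset.range q,
      ((Bad3 (N + i * M) M c t s).ncard : ℝ) ≤ M * Real.exp (-(3 / 2 * t ^ (δ / 2))) := by
    intro i hi
    rw [Finset.mem_range, hq] at hi
    have hiM : i * M ≤ N := by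
      have h5 : i ≤ N / M := by omega
      calc i * M ≤ (N / M) * M := Nat.mul_le_mul_right _ h5
        _ ≤ N := Nat.div_mul_le_self _ _
    have hNi : (N : ℝ) ≤ ((N + i * M : ℕ) : ℝ) := by
      exact_mod_cast Nat.le_add_right N (i * M)
    have hNi2 : ((N + i * M : ℕ) : ℝ) ≤ 2 * N := by
      have h5 : N + i * M ≤ 2 * N := by omega
      exact_mod_cast h5
    have hti : t ≤ Real.log ((N + i * M : ℕ) : ℝ) := by
      rw [ht]
      exact Real.log_le_log hN0 hNi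
    have hti2 : Real.log ((N + i * M : ℕ) : ℝ) ≤ t + 1 := by
      have h5 : Real.log ((N + i * M : ℕ) : ℝ) ≤ Real.log (2 * N) :=
        Real.log_le_log (by linarith) hNi2
      rw [Real.log_mul (by norm_num) hN0.ne', ← ht] at h5
      have := Real.log_two_lt_d9
      linarith
    rw [hs]
    refine hN₁ (N + i * M) (by omega) t hti hti2 M ?_ ?_
    · rw [Real.sqrt_le_left (Nat.cast_nonneg M)]
      have h3 : (N : ℝ) / 17 ≤ M := by linarith
      have h4 : ((N : ℝ) / 17) ^ 2 ≤ (M : ℝ) ^ 2 := pow_le_pow_left₀ (by positivity) h3 2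
      nlinarith
    · have h3 : 16 * (M : ℝ) ≤ N := by exact_mod_cast hM16
      linarith
  have hfin : (⋃ i ∈ Finset.range q, Bad3 (N + i * M) M c t s).Finite :=
    Set.Finite.biUnion (Finset.finite_toSet _) fun i _ => bad3_finite _ _ _ _ _
  have h5 : ((Bad3 N N c t s).ncard : ℝ) ≤
      ∑ i ∈ Finset.range q, ((Bad3 (N + i * M) M c t s).ncard : ℝ) := by
    have h6 := Set.ncard_le_ncard hsub hfin
    have h7 := Finset.set_ncard_biUnion_le (Finset.range q) (fun i => Bad3 (N + i * M) M c t s)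
    exact_mod_cast h6.trans h7
  refine h5.trans ((Finset.sum_le_sum hblk').trans ?_)
  rw [Finset.sum_const, Finset.card_range, nsmul_eq_mul]
  have h6 : (q : ℝ) * M ≤ 2 * N := by exact_mod_cast hq1
  have h7 : Real.exp (-(3 / 2 * t ^ (δ / 2))) =
      Real.exp (-(t ^ (δ / 2) / 2)) * Real.exp (-(t ^ (δ / 2))) := by
    rw [← Real.exp_add]
    congr 1
    ring
  have h8 : 2 * Real.exp (-(t ^ (δ / 2) / 2)) ≤ 1 := by
    rw [Real.exp_neg, ← div_eq_mul_inv, div_le_one (Real.exp_pos _)]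
    have h9 : Real.exp 1 ≤ Real.exp (t ^ (δ / 2) / 2) := Real.exp_le_exp.2 (by linarith)
    have h11 := Real.exp_one_gt_d9
    linarith
  calc (q : ℝ) * (M * Real.exp (-(3 / 2 * t ^ (δ / 2))))
      = (q * M) * Real.exp (-(3 / 2 * t ^ (δ / 2))) := by ring
    _ ≤ (2 * N) * Real.exp (-(3 / 2 * t ^ (δ / 2))) := by gcongr
    _ = N * (2 * Real.exp (-(t ^ (δ / 2) / 2))) * Real.exp (-(t ^ (δ / 2))) := by rw [h7]; ring
    _ ≤ N * 1 * Real.exp (-(t ^ (δ / 2))) := by gcongr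
    _ = N * Real.exp (-(t ^ (δ / 2))) := by ring

end Pool.Agent.H45.NF
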