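import Pool.Agent.H45.NF.COREN

/-! Small norms in a window, one dyadic range. -/

set_option autoImplicit false

namespace Pool.Agent.H45.NF

open Polynomial Pool.Agent.W223.HZ Pool.Agent.W223.PL Pool.Agent.Q276.PL Pool.Agent.H45.PF
open Pool.Agent.Q182.PL Pool.Agent.Q121.PL

theorem pign (k : ℕ) (ε : ℝ) (hε : 0 < ε) (hε1 : ε ≤ 1) : ∃ C₈ : ℝ, 1 ≤ C₈ ∧
    ∀ (D V σ z Z S : ℝ) (m : ℕ) (l : ℤ[X]) (T : Finset ℤ), C₈ ≤ D → 0 ≤ σ →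
    C₈ * (2 * σ + 1) ^ 2 ≤ m → C₈ * m ≤ Real.log D → 1 ≤ V → V ≤ D ^ σ → 1 ≤ z →
    4 * z ^ 2 ≤ Z → Z ≤ D ^ ((1 : ℝ) / 8) → Near k ε D S l →
    (∀ τ ∈ T, |(τ : ℝ)| ≤ D ^ (1 / (8 * (m : ℝ))) ∧ D ≤ ((l.eval τ : ℤ) : ℝ) ∧
      Squarefree (l.eval τ) ∧ ∃ x y : ℤ, FundZ Z (l.eval τ) x y ∧ V ≤ y ∧ (y : ℝ) < 2 * V) →
    ∃ M : ℤ, M ≠ 0 ∧ Real.log |(M : ℝ)| ≤ C₈ * (m : ℝ) ^ 3 * Real.log D ∧ ∃ E ⊆ T,
      (E.card : ℝ) ≤ C₈ * Z * D ^ (1 / (16 * (m : ℝ))) * ((m : ℝ) ^ 2 * Real.log D) ^ 3 ∧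
      ∀ τ ∈ T \ E, z < (Int.gcd (l.eval τ) M : ℝ) := by
  obtain ⟨C₇, hC7, hPV⟩ := pvf k ε hε hε1
  refine ⟨C₇ + (k + 1) + 1 / ε + 10 ^ 12, by
    have h1 : (0 : ℝ) ≤ k := Nat.cast_nonneg k
    have h2 : 0 < 1 / ε := by positivity
    linarith, ?_⟩
  intro D V σ z Z S m l T hD hσ0 hσm hCm hV1 hVD hz1 hzZ hZD hN hT
  obtain ⟨C₈, hC₈⟩ : ∃ C₈ : ℝ, C₈ = C₇ + (k + 1) + 1 / ε + 10 ^ 12 := ⟨_, rfl⟩
  rw [← hC₈] at hD hσm hCm ⊢
  have hk0 : (0 : ℝ) ≤ k := Nat.cast_nonneg k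
  have hε0 : 0 < 1 / ε := by positivity
  have hC87 : C₇ ≤ C₈ := by rw [hC₈]; linarith
  have hC8k : (k : ℝ) + 1 ≤ C₈ := by rw [hC₈]; linarith
  have hC8n : (10 : ℝ) ^ 12 ≤ C₈ := by rw [hC₈]; linarith
  obtain ⟨hmC, hσle⟩ := ax1 (by linarith : 1 ≤ C₈) hσ0 hσm
  have hm1 : (1 : ℝ) ≤ m := by linarith
  have hm : 1 ≤ m := by exact_mod_cast hm1
  have hkm : k ≤ m := by
    have : (k : ℝ) ≤ m := by linarith
    exact_mod_cast this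
  have hD1 : 1 ≤ D := by linarith
  have hDpos : 0 < D := by linarith
  have hlm : (m : ℝ) ≤ Real.log D := ax2 (by linarith : 1 ≤ C₈) (by linarith) hCm
  have hl1 : 1 ≤ Real.log D := hm1.trans hlm
  have hC7m : C₇ * m ≤ Real.log D := (mul_le_mul_of_nonneg_right hC87 (by linarith)).trans hCm
  have hσm7 : C₇ * (2 * σ + 1) ^ 2 ≤ m :=
    (mul_le_mul_of_nonneg_right hC87 (by positivity)).trans hσm
  have hZ4 : 4 ≤ Z := by nlinarith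
  have hZD1 : Z ≤ D := by
    refine hZD.trans ?_
    have := Real.rpow_le_rpow_of_exponent_le hD1 (by norm_num : (1 : ℝ) / 8 ≤ 1)
    rwa [Real.rpow_one] at this
  have hZsq : (z + Z) * (z + Z) < D := by
    have h1 : z ≤ Z := by nlinarith
    have h2 : (z + Z) * (z + Z) ≤ 4 * (Z * Z) := by nlinarith
    have h3 : Z * Z ≤ D ^ ((1 : ℝ) / 4) := by
      calc Z * Z ≤ D ^ ((1 : ℝ) / 8) * D ^ ((1 : ℝ) / 8) :=
            mul_le_mul hZD hZD (by linarith) (Real.rpow_nonneg hDpos.le _)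
        _ = D ^ ((1 : ℝ) / 4) := by
            rw [← Real.rpow_add hDpos]
            norm_num
    have h4 : (4 : ℝ) < D ^ ((3 : ℝ) / 4) := by
      calc (4 : ℝ) < (10 ^ 12 : ℝ) ^ ((3 : ℝ) / 4) := by
            rw [← Real.rpow_natCast, ← Real.rpow_mul (by norm_num)]
            norm_num
        _ ≤ D ^ ((3 : ℝ) / 4) := Real.rpow_le_rpow (by norm_num) (by linarith) (by norm_num)
    have h5 : D ^ ((3 : ℝ) / 4) * D ^ ((1 : ℝ) / 4) = D := by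
      rw [← Real.rpow_add hDpos]
      norm_num
    have h6 : 0 < D ^ ((1 : ℝ) / 4) := Real.rpow_pos_of_pos hDpos _
    calc (z + Z) * (z + Z) ≤ 4 * D ^ ((1 : ℝ) / 4) := by linarith
      _ < D ^ ((3 : ℝ) / 4) * D ^ ((1 : ℝ) / 4) := mul_lt_mul_of_pos_right h4 h6
      _ = D := h5
  obtain ⟨Λ, hΛ⟩ : ∃ Λ, Λ = 50 * (m : ℝ) ^ 2 * Real.log D := ⟨_, rfl⟩
  obtain ⟨hm2, hml, hm2l, hu1'⟩ := ax3 hm1 hl1
  have h40 : (50 : ℝ) * m ≤ Λ := by rw [hΛ]; linarith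
  have hΛ1 : 1 ≤ Λ := by linarith
  obtain ⟨L, hL⟩ : ∃ L, L = D ^ (1 / (8 * (m : ℝ))) := ⟨_, rfl⟩
  have hL1 : 1 ≤ L := by rw [hL]; exact Real.one_le_rpow hD1 (by positivity)
  have hlog : Real.log (120 * √L * Λ) ≤ 2 * Λ := by
    rw [hL, hΛ]
    exact log_bnd' D m hm hD1 hlm
  have hsL : √L = D ^ (1 / (16 * (m : ℝ))) := by rw [hL]; exact sqrt_eq D m hm hD1
  have hsL1 : 1 ≤ √L := by rw [Real.one_le_sqrt]; exact hL1
  obtain ⟨n, hn⟩ : ∃ n, n = 2 * m := ⟨_, rfl⟩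
  have hnr : (n : ℝ) = 2 * m := by rw [hn]; push_cast; ring
  obtain ⟨hb1, hb2, hb3⟩ := bnd1 D σ Z m n hm hn hD1 hlm hσle (by linarith) hZD1
  rw [← hL] at hb2
  rw [← hΛ] at hb2
  rw [← hsL]
  simp only [← hL] at hT
  -- `L ≤ S`
  have hDε : D ^ ε ≤ S := hN.Sge
  have hS0 : 0 < S := lt_of_lt_of_le (Real.rpow_pos_of_pos hDpos _) hDε
  have hS1 : 1 ≤ S := (Real.one_le_rpow hD1 hε.le).trans hDε
  have hLS : L ≤ S := by
    refine le_trans ?_ hDε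
    rw [hL]
    apply Real.rpow_le_rpow_of_exponent_le hD1
    have h1 : 1 / ε ≤ m := by
      refine le_trans ?_ hmC
      rw [hC₈]
      linarith
    rw [div_le_iff₀ (by positivity)]
    exact ax7 hε h1
  -- the reduction
  suffices hmain : ∃ M : ℤ, M ≠ 0 ∧ |(M : ℝ)| ≤ Real.exp (500 * (m : ℝ) ^ 3 * Real.log D) ∧
      ∃ E ⊆ T, (E.card : ℝ) ≤ (m : ℝ) ^ 2 + 2 * (n : ℝ) ^ 2 + (2 * Z + 2) *
        (400000 * √L * Λ ^ 3) ∧
      ∀ τ ∈ T \ E, z < (Int.gcd (l.eval τ) M : ℝ) by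
    obtain ⟨M, hM0, hM, E, hE, hEc, hgcd⟩ := hmain
    refine ⟨M, hM0, ?_, E, hE, ?_, hgcd⟩
    · have h1 : Real.log |(M : ℝ)| ≤ 500 * (m : ℝ) ^ 3 * Real.log D := by
        have hpos : 0 < |(M : ℝ)| := abs_pos.mpr (by exact_mod_cast hM0)
        exact (Real.log_le_iff_le_exp hpos).mpr hM
      refine h1.trans ?_
      have h2 : (500 : ℝ) ≤ C₈ := by linarith
      have h3 : 0 ≤ (m : ℝ) ^ 3 * Real.log D := by positivity
      have h9 := mul_le_mul_of_nonneg_right h2 h3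
      rw [mul_assoc, mul_assoc]
      exact h9
    · refine hEc.trans ?_
      obtain ⟨u, hu⟩ : ∃ u, u = (m : ℝ) ^ 2 * Real.log D := ⟨_, rfl⟩
      have hΛu : Λ = 50 * u := by rw [hΛ, hu]; ring
      rw [← hu, hΛu, hnr]
      have hu1 : 1 ≤ u := by rw [hu]; exact hu1'
      have hmu : (m : ℝ) ≤ u := by rw [hu]; exact hml
      obtain ⟨hzs, h3, h4⟩ := ax5 hu1 (by linarith : 1 ≤ Z) hsL1
      have h1 : (m : ℝ) ^ 2 + 2 * (2 * (m : ℝ)) ^ 2 = 9 * (m : ℝ) ^ 2 := by ring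
      have h2 : (m : ℝ) ^ 2 ≤ u := by rw [hu]; exact hm2l
      have hu3 : 0 ≤ u ^ 3 := by positivity
      have h5 : (2 * Z + 2) * (400000 * √L * (50 * u) ^ 3) ≤ 200000000000 * (Z * √L * u ^ 3) := by
        have h10 : 0 ≤ √L * u ^ 3 := by positivity
        have h11 : 2 * Z + 2 ≤ 4 * Z := by linarith
        have h12 := mul_le_mul_of_nonneg_right h11 h10
        have h13 : (2 * Z + 2) * (400000 * √L * (50 * u) ^ 3) =
            50000000000 * ((2 * Z + 2) * (√L * u ^ 3)) := by ring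
        have h14 : 200000000000 * (Z * √L * u ^ 3) = 50000000000 * (4 * Z * (√L * u ^ 3)) := by ring
        rw [h13, h14]
        linarith
      rw [h1]
      have h6 : 0 ≤ Z * √L * u ^ 3 := by positivity
      have h7 : C₈ * Z * √L * u ^ 3 = C₈ * (Z * √L * u ^ 3) := by ring
      rw [h7]
      have h8 : 10 ^ 12 * (Z * √L * u ^ 3) ≤ C₈ * (Z * √L * u ^ 3) :=
        mul_le_mul_of_nonneg_right hC8n h6
      linarith
  have h4 : ∀ τ ∈ T, ∃ x y : ℤ, FundZ Z (l.eval τ) x y ∧ V ≤ y ∧ (y : ℝ) < 2 * V :=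
    fun τ hτ => (hT τ hτ).2.2.2
  choose! x y hX using h4
  have hτL : ∀ τ ∈ T, |(τ : ℝ)| ≤ L := fun τ hτ => (hT τ hτ).1
  have hdR : ∀ τ ∈ T, D ≤ ((l.eval τ : ℤ) : ℝ) ∧ ((l.eval τ : ℤ) : ℝ) ≤ 3 * D := by
    intro τ hτ
    refine ⟨(hT τ hτ).2.1, ?_⟩
    have h1 := near_eval hN hDpos hS0 τ ((hτL τ hτ).trans hLS)
    have h2 := (abs_le.1 h1).2
    have h3 := hN.l02
    linarith
  obtain ⟨W, hW⟩ : ∃ W, W = D ^ σ := ⟨_, rfl⟩
  have hW1 : 1 ≤ W := hV1.trans (hW ▸ hVD)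
  have hVW : V ≤ W := hW ▸ hVD
  obtain ⟨H, hH⟩ : ∃ H, H = 8 * (W * D ^ 2) := ⟨_, rfl⟩
  obtain ⟨hWD1, hWD, hWD2, hWD3, hWD4⟩ := ax4 hD1 hW1
  have hH1 : 1 ≤ H := by rw [hH]; linarith
  rw [← hW, ← hH] at hb1 hb2 hb3
  have hlH : ∀ i, |(l.coeff i : ℝ)| ≤ H := by
    intro i
    have h3 := hN.l02
    have h30 := hN.l0
    have hD2 : 2 * D ≤ H := by
      rw [hH]
      exact hWD3
    rcases Nat.eq_zero_or_pos i with rfl | hi
    · rw [abs_of_nonneg (by linarith)]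
      linarith
    · have h1 := hN.coef i hi
      have h2 : |(l.coeff i : ℝ)| ≤ |(l.coeff i : ℝ)| * S ^ i :=
        le_mul_of_one_le_right (abs_nonneg _) (one_le_pow₀ hS1)
      have h5 : (l.coeff 0 : ℝ) / (4 * ((k : ℝ) + 1)) ≤ (l.coeff 0 : ℝ) := by
        apply div_le_self (by linarith)
        linarith
      linarith
  -- sizes
  have hLn : ∀ j ≤ n, L ^ j ≤ D := by
    intro j hj
    refine (pow_le_pow_right₀ hL1 hj).trans ?_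
    rw [hL, ← Real.rpow_natCast, ← Real.rpow_mul hDpos.le]
    have h1 : 1 / (8 * (m : ℝ)) * n ≤ 1 := by
      rw [div_mul_eq_mul_div, one_mul, div_le_one (by positivity), hnr]
      linarith
    have := Real.rpow_le_rpow_of_exponent_le hD1 h1
    rwa [Real.rpow_one] at this
  have hxR : ∀ τ ∈ T, |(x τ : ℝ)| ≤ 4 * (W * D) := by
    intro τ hτ
    obtain ⟨⟨hx1, hy1, hnorm, -⟩, hyV, hyV2⟩ := hX τ hτ
    push_cast at hnorm
    have h1 := (abs_le.1 hnorm).2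
    have h2 := (hdR τ hτ).2
    have h3 : (0 : ℝ) ≤ y τ := by linarith
    have h4 : (y τ : ℝ) ^ 2 ≤ (2 * W) ^ 2 := pow_le_pow_left₀ h3 (by linarith) 2
    have h5 : ((l.eval τ : ℤ) : ℝ) * (y τ : ℝ) ^ 2 ≤ 3 * D * (2 * W) ^ 2 :=
      mul_le_mul h2 h4 (by positivity) (by positivity)
    refine abs_le_of_sq_le_sq ?_ (by positivity)
    have h6 : Z ≤ D * W ^ 2 := by
      have : (1 : ℝ) ≤ W ^ 2 := one_le_pow₀ hW1
      nlinarith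
    have h7 : D * W ^ 2 ≤ D ^ 2 * W ^ 2 := by
      have : D ≤ D ^ 2 := by nlinarith
      exact mul_le_mul_of_nonneg_right this (by positivity)
    have h8 : (x τ : ℝ) ^ 2 ≤ 13 * (D * W ^ 2) := by linarith
    calc (x τ : ℝ) ^ 2 ≤ 13 * (D * W ^ 2) := h8
      _ ≤ 16 * (D ^ 2 * W ^ 2) := by nlinarith
      _ = (4 * (W * D)) ^ 2 := by ring
  have hyR : ∀ τ ∈ T, |(y τ : ℝ)| ≤ 2 * W := by
    intro τ hτ
    obtain ⟨-, hyV, hyV2⟩ := hX τ hτ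
    rw [abs_of_nonneg (by linarith)]
    linarith
  have hτj : ∀ τ ∈ T, ∀ j ≤ n, |(τ : ℝ) ^ j| ≤ D := by
    intro τ hτ j hj
    rw [abs_pow]
    exact (pow_le_pow_left₀ (abs_nonneg _) (hτL τ hτ) j).trans (hLn j hj)
  have hWl : W ≤ W * D := le_mul_of_one_le_right (by linarith) hD1
  have hDW : D ≤ W * D := le_mul_of_one_le_left (by linarith) hW1
  have hHx : ∀ τ ∈ T, ∀ ν : ℤ, 0 ≤ ν → (ν : ℝ) ≤ Z → ∀ j < n,
      |(((x τ - ν) * τ ^ j : ℤ) : ℝ)| ≤ H ∧ |((y τ * τ ^ j : ℤ) : ℝ)| ≤ H := by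
    intro τ hτ ν hν0 hνZ j hj
    push_cast
    rw [abs_mul, abs_mul, hH, pow_two, ← mul_assoc W]
    have h0 : |(x τ : ℝ) - ν| ≤ 5 * (W * D) := by
      refine (abs_sub _ _).trans ?_
      rw [abs_of_nonneg (by exact_mod_cast hν0 : (0 : ℝ) ≤ (ν : ℝ))]
      have := hxR τ hτ
      linarith
    have h01 : |(y τ : ℝ)| ≤ 2 * (W * D) := (hyR τ hτ).trans (by linarith)
    exact ⟨ax6 h0 (hτj τ hτ j hj.le) (by norm_num) (by norm_num) (by linarith),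
      ax6 h01 (hτj τ hτ j hj.le) (by norm_num) (by norm_num) (by linarith)⟩
  have hdet : ∀ f : Fin m ⊕ Fin m → ℤ, (∀ i, f i ∈ T) →
      (Mat m (fun i => x (f i)) (fun i => y (f i)) f).det = 0 := by
    intro f hf
    refine hPV m D V σ S l (fun i => x (f i)) (fun i => y (f i)) f hN.fam.deg hm
      (hC87.trans hD) hσ0 hσm7 hC7m hV1 hVD hDε hN.l0 hN.l02 hN.coef
      (fun i => by rw [← hL]; exact hτL _ (hf i)) (fun i => (hdR _ (hf i)).1)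
      (fun i => (hX _ (hf i)).2) (fun i => (hX _ (hf i)).1.1) (fun i => ?_)
    exact (hX _ (hf i)).1.2.2.1.trans hZD
  have hbase : ∀ τ ∈ T, Pt z Z L l x y τ := by
    intro τ hτ
    refine ⟨hτL τ hτ, ?_, (hT τ hτ).2.2.1, (hX τ hτ).1, ?_⟩
    · have h1 := (hdR τ hτ).1
      have h2 : (2 : ℝ) ≤ ((l.eval τ : ℤ) : ℝ) := by linarith
      exact_mod_cast h2
    · exact hZsq.trans_le (hdR τ hτ).1
  have h4m : (3 * n : ℝ) ≤ Λ := by rw [hnr]; linarith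
  obtain ⟨M, hM0, hM, hE⟩ := coren k l hN.fam m n L z Z Λ H T x y hkm hm hn hL1 hz1 hzZ hΛ1 h4m
    hlog hH1 hlH hbase hHx hdet (by
      refine le_trans ?_ hb2
      have : 0 ≤ (n : ℝ) * (2 * n * H) ^ (2 * n) * L ^ n := by positivity
      nlinarith)
  refine ⟨M, hM0, hM.trans ?_, hE⟩
  have h1 : Real.exp (500 * (m : ℝ) ^ 3 * Real.log D) =
      Real.exp (250 * (m : ℝ) ^ 3 * Real.log D) ^ 2 := by
    rw [← Real.exp_nat_mul]
    congr 1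
    push_cast
    ring
  rw [h1]
  exact pow_le_pow_left₀ (by positivity) hb3 2

end Pool.Agent.H45.NF
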