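import Pool.Agent.H45.NF.AR2
import Pool.Agent.H45.PF.SIDE

/-! Square norms: one relation gives a large common divisor. -/

set_option autoImplicit false

namespace Pool.Agent.H45.NF

open Polynomial Pool.Agent.W223.HZ Pool.Agent.W223.PL Pool.Agent.Q276.PL Pool.Agent.H45.PF
open Pool.Agent.Q182.PL Pool.Agent.Q109.PLJ

/-- the data of a point whose norm is a square -/
def SqPt (z Z : ℝ) (d x y n : ℤ) : Prop := 2 ≤ d ∧ Squarefree d ∧ FundZ Z d x y ∧ 1 ≤ n ∧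
  x ^ 2 - d * y ^ 2 = n ^ 2 ∧ 2 * z * n ≤ Z ∧ (z + Z) * (z + Z) < d

theorem siden (k : ℕ) (l : ℤ[X]) (hl : Fam k l) (m : ℕ) (z Z W₀ : ℝ) (T : Finset ℤ)
    (x y n : ℤ → ℤ) (P Q : ℤ[X]) (hkm : k ≤ m) (hz : 1 ≤ z) (hW₀ : 1 ≤ W₀)
    (hlc : ∀ i, |(l.coeff i : ℝ)| ≤ W₀) (hPc : ∀ i, |(P.coeff i : ℝ)| ≤ W₀)
    (hQc : ∀ i, |(Q.coeff i : ℝ)| ≤ W₀)
    (hT : ∀ τ ∈ T, SqPt z Z (l.eval τ) (x τ) (y τ) (n τ))
    (hdP : P.natDegree < m) (hdQ : Q.natDegree < m)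
    (hco : IsCoprime (P.map (Int.castRingHom ℚ)) (Q.map (Int.castRingHom ℚ)))
    (hrel : ∀ τ ∈ T, (x τ - n τ) * P.eval τ + y τ * Q.eval τ = 0) :
    ∃ M : ℤ, M ≠ 0 ∧ |(M : ℝ)| ≤ ((2 * m + 2) * W₀) ^ (2 * m + 2) ∧
      ∀ τ ∈ T, z < (Int.gcd (l.eval τ) M : ℝ) := by
  have hAR' : ∀ τ ∈ T, ∃ e e' r s κ : ℤ, 1 ≤ e ∧ 1 ≤ e' ∧ 1 ≤ r ∧ 1 ≤ s ∧ e * e' = l.eval τ ∧
      (κ = 1 ∨ κ = 2) ∧ (x τ - n τ) * s = e * r * y τ ∧ (x τ + n τ) * r = e' * s * y τ ∧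
      e' * s ^ 2 - e * r ^ 2 = κ * n τ ∧ IsCoprime (e * r) s ∧ IsCoprime (e' * s) r ∧
      z < (e : ℝ) ∧ z < (e' : ℝ) := by
    intro τ hτ
    obtain ⟨h1, h2, h3, h4, h5, h6, h7⟩ := hT τ hτ
    exact ar2_big h1 h2 h3 h4 h5 hz h6 h7
  choose! e e' r s κ hall using hAR'
  have hy : ∀ τ ∈ T, y τ ≠ 0 := by
    intro τ hτ
    have := (hT τ hτ).2.2.1.2.1
    omega
  have hg : ∀ τ ∈ T, ∃ g : ℤ, P.eval τ = s τ * g ∧ Q.eval τ = -(e τ * r τ * g) := by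
    intro τ hτ
    obtain ⟨he, he', hr, hs, hd, hκ, h1, h2, h3, hc1, hc2, -, -⟩ := hall τ hτ
    have h4 : y τ * (e τ * r τ * P.eval τ + s τ * Q.eval τ) = 0 := by
      linear_combination s τ * hrel τ hτ - P.eval τ * h1
    have h5 := (mul_eq_zero.1 h4).resolve_left (hy τ hτ)
    have h6 : s τ ∣ e τ * r τ * P.eval τ := ⟨-Q.eval τ, by linear_combination h5⟩
    obtain ⟨g, hg⟩ := hc1.symm.dvd_of_dvd_mul_left h6
    refine ⟨g, hg, ?_⟩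
    have hs0 : s τ ≠ 0 := by omega
    apply mul_left_cancel₀ hs0
    rw [hg] at h5
    linear_combination h5
  have hbez := Pool.Agent.Q164.PL.bez
  by_cases hdv : l.map (Int.castRingHom ℚ) ∣ Q.map (Int.castRingHom ℚ)
  · have hlP : ¬ l.map (Int.castRingHom ℚ) ∣ P.map (Int.castRingHom ℚ) := fun h =>
      hl.irr.not_isUnit (hco.isUnit_of_dvd' h hdv)
    obtain ⟨U, W', R, hR0, hR, hRb⟩ := hbez m l P W₀ hW₀ (hl.deg.trans hkm) hdP.le hlc hPc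
      (cop_of_not_dvd hl.irr hlP)
    refine ⟨R, hR0, hRb, fun τ hτT => ?_⟩
    obtain ⟨Q2, hQ2⟩ := dvd_of_map hl.prim hdv
    obtain ⟨g, hg1, hg2⟩ := hg τ hτT
    obtain ⟨he, he', hr, hs, hd, hκ, -, -, -, hc1, hc2, hbe, hbe'⟩ := hall τ hτT
    have h1 : Q.eval τ = l.eval τ * Q2.eval τ := by rw [hQ2, eval_mul]
    have h2 : e' τ * Q2.eval τ = -(r τ * g) := by
      have he0 : e τ ≠ 0 := by omega
      apply mul_left_cancel₀ he0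
      rw [hg2, ← hd] at h1
      linear_combination -h1
    have h3 : e' τ ∣ r τ * g := ⟨-Q2.eval τ, by linear_combination h2⟩
    have h4 : IsCoprime (e' τ) (r τ) := hc2.of_mul_left_left
    have h5 : e' τ ∣ g := h4.dvd_of_dvd_mul_left h3
    have h6 : e' τ ∣ P.eval τ := by
      rw [hg1]
      exact h5.mul_left _
    have h7 : e' τ ∣ l.eval τ := ⟨e τ, by rw [← hd]; ring⟩
    have h8 : U.eval τ * l.eval τ + W'.eval τ * P.eval τ = R := by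
      have := congrArg (Polynomial.eval τ) hR
      simpa using this
    have h9 : e' τ ∣ R := by
      rw [← h8]
      exact dvd_add (h7.mul_left _) (h6.mul_left _)
    refine le_gcd hbe' h7 h9 ?_
    have := (hT τ hτT).1
    omega
  · obtain ⟨U, W', R, hR0, hR, hRb⟩ := hbez m l Q W₀ hW₀ (hl.deg.trans hkm) hdQ.le hlc hQc
      (cop_of_not_dvd hl.irr hdv)
    refine ⟨R, hR0, hRb, fun τ hτT => ?_⟩
    obtain ⟨g, hg1, hg2⟩ := hg τ hτT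
    obtain ⟨he, he', hr, hs, hd, -, -, -, -, -, -, hbe, -⟩ := hall τ hτT
    have h1 : e τ ∣ l.eval τ := ⟨e' τ, hd.symm⟩
    have h3 : e τ ∣ Q.eval τ := ⟨-(r τ * g), by rw [hg2]; ring⟩
    have h8 : U.eval τ * l.eval τ + W'.eval τ * Q.eval τ = R := by
      have := congrArg (Polynomial.eval τ) hR
      simpa using this
    have h9 : e τ ∣ R := by
      rw [← h8]
      exact dvd_add (h1.mul_left _) (h3.mul_left _)
    refine le_gcd hbe h1 h9 ?_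
    have := (hT τ hτT).1
    omega

theorem clfn (k : ℕ) (l : ℤ[X]) (hl : Fam k l) (m n : ℕ) (η : ℤ) (z Z H : ℝ) (T : Finset ℤ)
    (x y ν : ℤ → ℤ) (P Q : ℤ[X]) (hkm : k ≤ m) (hm : 1 ≤ m) (hn : n = 2 * m)
    (hη : η = 1 ∨ η = -1) (hz : 1 ≤ z) (hH : 1 ≤ H) (hlc : ∀ i, |(l.coeff i : ℝ)| ≤ H)
    (hT : ∀ τ ∈ T, SqPt z Z (l.eval τ) (x τ) (y τ) (ν τ))
    (hb : ∀ τ ∈ T, ∀ j < n, |(((x τ - ν τ) * τ ^ j : ℤ) : ℝ)| ≤ H ∧
      |((y τ * τ ^ j : ℤ) : ℝ)| ≤ H)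
    (hPQ : P ≠ 0 ∨ Q ≠ 0) (hPm : P.natDegree < m) (hQm : Q.natDegree < m)
    (hrel : ∀ τ ∈ T, (x τ - η * ν τ) * P.eval τ + y τ * Q.eval τ = 0) :
    ∃ M : ℤ, M ≠ 0 ∧ |(M : ℝ)| ≤ ((2 * n + 2) * (2 * n * H) ^ (2 * n)) ^ (2 * n + 2) ∧
      ∃ E ⊆ T, (E.card : ℝ) ≤ (n : ℝ) ^ 2 ∧
      ∀ τ ∈ T \ E, z < (Int.gcd (l.eval τ) M : ℝ) := by
  have hn1 : (1 : ℝ) ≤ n := by
    have : 1 ≤ n := by omega
    exact_mod_cast this
  have hl0 : l ≠ 0 := by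
    rintro rfl
    have := hl.irr.ne_zero
    simp at this
  -- the relation
  have key : ∃ A B : ℤ[X], (A ≠ 0 ∨ B ≠ 0) ∧ A.natDegree < n ∧ B.natDegree < n ∧
      (∀ τ ∈ T, (x τ - ν τ) * A.eval τ + y τ * B.eval τ = 0) := by
    have hmul : (l * P).natDegree < n := by
      refine lt_of_le_of_lt Polynomial.natDegree_mul_le ?_
      have := hl.deg
      omega
    rcases hη with h | h
    · refine ⟨P, Q, hPQ, by omega, by omega, ?_⟩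
      intro τ hτ
      have := hrel τ hτ
      rwa [h, one_mul] at this
    · refine ⟨Q, l * P, ?_, by omega, hmul, ?_⟩
      · rcases hPQ with h | h
        · right
          exact mul_ne_zero hl0 h
        · left; exact h
      intro τ hτ
      obtain ⟨-, -, ⟨-, hy1, -, -⟩, -, hpell, -⟩ := hT τ hτ
      have h1 := hrel τ hτ
      rw [h] at h1
      have hy0 : y τ ≠ 0 := by omega
      apply mul_left_cancel₀ hy0
      rw [mul_zero, eval_mul]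
      linear_combination (x τ - ν τ) * h1 - P.eval τ * hpell
  obtain ⟨A, B, hAB, hA, hB, hr⟩ := key
  have hR2D := Pool.Agent.Q94.PL.r2d
  have hMIN := Pool.Agent.Q182.PL.min
  have hdet := hR2D n T (fun τ => x τ - ν τ) y A B hAB hA hB hr
  obtain ⟨T₁, hT₁, hc₁, P₁, Q₁, -, hP₁, hQ₁, hcP₁, hcQ₁, hco₁, hre₁⟩ :=
    hMIN n (by omega) T (fun τ => x τ - ν τ) y H hH hb hdet
  obtain ⟨W, hW⟩ : ∃ W : ℝ, W = (2 * (n : ℝ) * H) ^ (2 * n) := ⟨_, rfl⟩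
  rw [← hW] at hcP₁ hcQ₁ ⊢
  have h2nH : 1 ≤ 2 * (n : ℝ) * H := by nlinarith
  have hHW : H ≤ W := by
    rw [hW]
    refine le_trans ?_ (le_self_pow₀ h2nH (by omega))
    nlinarith
  have hW1 : 1 ≤ W := hH.trans hHW
  obtain ⟨M, hM0, hM, hE1⟩ := siden k l hl n z Z W T₁ x y ν P₁ Q₁
    (by omega) hz hW1 (fun i => (hlc i).trans hHW) hcP₁ hcQ₁
    (fun τ hτ => hT τ (hT₁ hτ)) hP₁ hQ₁ hco₁ hre₁
  refine ⟨M, hM0, hM, T \ T₁, Finset.sdiff_subset, ?_, ?_⟩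
  · exact_mod_cast hc₁
  · intro τ hτ
    apply hE1
    rw [Finset.mem_sdiff, Finset.mem_sdiff] at hτ
    tauto

end Pool.Agent.H45.NF
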